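import Mathlib

/-!
# Counting independent sets greedily

If every element of `L` conflicts with at most `Δ` elements of `L` (itself included) then there are at least
`choose (|L| - D Δ) D` conflict free `D`-subsets of `L`.
-/

namespace H92PH

open Finset

open Classical in
/-- the conflict free `D`-subsets of `L` -/
noncomputable def indep {α : Type*} (conf : α → α → Prop) (L : Finset α) (D : ℕ) : Finset (Finset α) :=
  (L.powersetCard D).filter fun T => ∀ e ∈ T, ∀ e' ∈ T, e ≠ e' → ¬ conf e e'

theorem mem_indep {α : Type*} {conf : α → α → Prop} {L : Finset α} {D : ℕ} {T : Finset α} :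
    T ∈ indep conf L D ↔ (T ⊆ L ∧ T.card = D) ∧ ∀ e ∈ T, ∀ e' ∈ T, e ≠ e' → ¬ conf e e' := by
  classical
  unfold indep
  rw [Finset.mem_filter, Finset.mem_powersetCard]

open Classical in
theorem indep_step {α : Type*} (conf : α → α → Prop) (hrefl : ∀ e, conf e e) (hsymm : ∀ e e', conf e e' → conf e' e)
    (L : Finset α) (Δ : ℕ) (hΔ : ∀ e ∈ L, (L.filter (fun e' => conf e e')).card ≤ Δ) (D : ℕ) :
    (indep conf L D).card * (L.card - D * Δ) ≤ (D + 1) * (indep conf L (D + 1)).card := by
  have hinj : ((indep conf L D).sigma (fun T => L.filter (fun e => ∀ t ∈ T, ¬ conf t e))).card ≤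
      ((indep conf L (D + 1)).sigma (fun T => T)).card := by
    apply Finset.card_le_card_of_injOn (fun p => (⟨insert p.2 p.1, p.2⟩ : Σ _ : Finset α, α))
    · intro p hp
      obtain ⟨T, e⟩ := p
      rw [Finset.mem_coe, Finset.mem_sigma] at hp
      obtain ⟨hT, he⟩ := hp
      simp only at hT he
      rw [indep, Finset.mem_filter, Finset.mem_powersetCard] at hT
      rw [Finset.mem_filter] at he
      have heT : e ∉ T := fun h => he.2 e h (hrefl e)
      rw [Finset.mem_coe, Finset.mem_sigma]
      refine ⟨?_, Finset.mem_insert_self _ _⟩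
      rw [indep, Finset.mem_filter, Finset.mem_powersetCard]
      refine ⟨⟨Finset.insert_subset he.1 hT.1.1, ?_⟩, ?_⟩
      · rw [Finset.card_insert_of_notMem heT, hT.1.2]
      · intro x hx y hy hxy
        rw [Finset.mem_insert] at hx hy
        rcases hx with rfl | hx
        · rcases hy with rfl | hy
          · exact absurd rfl hxy
          · intro hc
            exact he.2 y hy (hsymm _ _ hc)
        · rcases hy with rfl | hy
          · exact he.2 x hx
          · exact hT.2 x hx y hy hxy
    · intro p hp p' hp' hpp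
      obtain ⟨T, e⟩ := p
      obtain ⟨T', e'⟩ := p'
      rw [Finset.mem_coe, Finset.mem_sigma] at hp hp'
      simp only [Sigma.mk.injEq] at hpp
      obtain ⟨h1, h2⟩ := hpp
      have h2' : e = e' := by simpa using h2
      subst h2'
      have heT : e ∉ T := fun h => (Finset.mem_filter.1 hp.2).2 e h (hrefl e)
      have heT' : e ∉ T' := fun h => (Finset.mem_filter.1 hp'.2).2 e h (hrefl e)
      have : T = T' := by
        rw [← Finset.erase_insert heT, ← Finset.erase_insert heT', h1]
      subst this
      rfl
  rw [Finset.card_sigma, Finset.card_sigma] at hinj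
  have hlow : (indep conf L D).card * (L.card - D * Δ) ≤
      ∑ T ∈ indep conf L D, (L.filter (fun e => ∀ t ∈ T, ¬ conf t e)).card := by
    rw [← smul_eq_mul, ← Finset.sum_const]
    apply Finset.sum_le_sum
    intro T hT
    rw [indep, Finset.mem_filter, Finset.mem_powersetCard] at hT
    have h1 : (L.filter (fun e => ¬ ∀ t ∈ T, ¬ conf t e)).card ≤ D * Δ := by
      have hsub : (L.filter (fun e => ¬ ∀ t ∈ T, ¬ conf t e)) ⊆ T.biUnion (fun t => L.filter (fun e' => conf t e')) := by
        intro e he
        rw [Finset.mem_filter] at he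
        obtain ⟨heL, hne⟩ := he
        push Not at hne
        obtain ⟨t, ht, hc⟩ := hne
        exact Finset.mem_biUnion.2 ⟨t, ht, Finset.mem_filter.2 ⟨heL, hc⟩⟩
      refine (Finset.card_le_card hsub).trans (Finset.card_biUnion_le.trans ?_)
      calc ∑ t ∈ T, (L.filter (fun e' => conf t e')).card ≤ ∑ t ∈ T, Δ :=
            Finset.sum_le_sum fun t ht => hΔ t (hT.1.1 ht)
        _ = D * Δ := by rw [Finset.sum_const, smul_eq_mul, hT.1.2]
    have h2 := Finset.card_filter_add_card_filter_not (s := L) (fun e => ∀ t ∈ T, ¬ conf t e)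
    omega
  have hup : ∑ T ∈ indep conf L (D + 1), T.card = (D + 1) * (indep conf L (D + 1)).card := by
    rw [mul_comm, ← smul_eq_mul, ← Finset.sum_const]
    apply Finset.sum_congr rfl
    intro T hT
    rw [indep, Finset.mem_filter, Finset.mem_powersetCard] at hT
    exact hT.1.2
  rw [← hup]
  exact hlow.trans hinj

/-- greedy lower bound for the number of independent sets. -/
theorem indep_card {α : Type*} (conf : α → α → Prop) (hrefl : ∀ e, conf e e) (hsymm : ∀ e e', conf e e' → conf e' e)
    (L : Finset α) (Δ : ℕ) (h1 : 1 ≤ Δ) (hΔ : ∀ e ∈ L, by classical exact (L.filter (fun e' => conf e e')).card ≤ Δ) (D : ℕ) :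
    (L.card - D * Δ).choose D ≤ (indep conf L D).card := by
  classical
  induction D with
  | zero =>
    have : (indep conf L 0) = {∅} := by
      rw [indep]
      ext T
      simp
      intro h
      subst h
      simp
    rw [this]; simp
  | succ D ih =>
    have hstep := indep_step conf hrefl hsymm L Δ (fun e he => by convert hΔ e he) D
    set X := L.card - D * Δ with hX
    have hX' : L.card - (D + 1) * Δ = X - Δ := by rw [hX, Nat.sub_sub]; congr 1; ring
    rw [hX']
    -- (D+1) * choose (X - Δ) (D+1) ≤ X * choose X D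
    have h2 : (D + 1) * (X - Δ).choose (D + 1) ≤ X * X.choose D := by
      rcases Nat.eq_zero_or_pos (X - Δ) with h0 | hpos
      · rw [h0]; simp
      · obtain ⟨Y, hY⟩ : ∃ Y, X - Δ = Y + 1 := ⟨X - Δ - 1, by omega⟩
        rw [hY, mul_comm (D + 1), ← Nat.add_one_mul_choose_eq]
        apply Nat.mul_le_mul
        · omega
        · exact Nat.choose_le_choose D (by omega)
    have h3 : (D + 1) * (X - Δ).choose (D + 1) ≤ (D + 1) * (indep conf L (D + 1)).card := by
      calc (D + 1) * (X - Δ).choose (D + 1) ≤ X * X.choose D := h2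
        _ ≤ X * (indep conf L D).card := Nat.mul_le_mul_left _ ih
        _ = (indep conf L D).card * X := mul_comm _ _
        _ ≤ _ := hstep
    exact Nat.le_of_mul_le_mul_left h3 (by omega)

end H92PH
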