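import Pool.Agent.H92.PH.Gr
import Pool.Agent.H92.PH.Ind

/-!
# Good sets of edges in the graph model

`lowE f h`: the edges whose hole has degree at most `h`.  `pairs f`: ordered pairs of different pigeons at the same hole.
`conf f e e'`: some pigeon is adjacent to the holes of both edges.  Conflict free sets are good: no nonempty small set of pigeons
has its boundary inside their holes.
-/

namespace H92PH

open Finset

open Classical in
/-- triples (class, pigeon, other pigeon) with the two pigeons at the same hole -/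
noncomputable def pairs {n1 m : ℕ} (f : Fin 8 → Fin m → Fin n1) : ℕ :=
  (Finset.univ.filter fun p : (Fin 8 × Fin m) × Fin m => p.1.2 ≠ p.2 ∧ f p.1.1 p.1.2 = f p.1.1 p.2).card

open Classical in
/-- edges whose hole has degree at most `h` -/
noncomputable def lowE {n1 m : ℕ} (f : Fin 8 → Fin m → Fin n1) (h : ℕ) : Finset (Fin 8 × Fin m) :=
  Finset.univ.filter fun e => (Finset.univ.filter fun u => f e.1 u = f e.1 e.2).card ≤ h

/-- some pigeon is adjacent to the holes of both edges -/
def conf {n1 m : ℕ} (f : Fin 8 → Fin m → Fin n1) (e e' : Fin 8 × Fin m) : Prop :=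
  ∃ u, f e.1 u = f e.1 e.2 ∧ f e'.1 u = f e'.1 e'.2

theorem low_card {n1 m : ℕ} (f : Fin 8 → Fin m → Fin n1) (h : ℕ) :
    h * (8 * m - (lowE f h).card) ≤ pairs f := by
  classical
  have h1 : pairs f = ∑ e : Fin 8 × Fin m, (Finset.univ.filter fun u => e.2 ≠ u ∧ f e.1 e.2 = f e.1 u).card := by
    rw [pairs, Finset.card_filter, Fintype.sum_prod_type]
    apply Finset.sum_congr rfl
    intro e _
    rw [Finset.card_filter]
  have h2 := Finset.card_filter_add_card_filter_not (s := (Finset.univ : Finset (Fin 8 × Fin m)))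
    (fun e => (Finset.univ.filter fun u => f e.1 u = f e.1 e.2).card ≤ h)
  have h3 : (Finset.univ : Finset (Fin 8 × Fin m)).card = 8 * m := by simp
  have h4 : (8 * m - (lowE f h).card) = (Finset.univ.filter fun e : Fin 8 × Fin m =>
      ¬ (Finset.univ.filter fun u => f e.1 u = f e.1 e.2).card ≤ h).card := by
    have h5 : (lowE f h).card = (Finset.univ.filter fun e : Fin 8 × Fin m =>
      (Finset.univ.filter fun u => f e.1 u = f e.1 e.2).card ≤ h).card := by
      unfold lowE
      congr!
    rw [h3] at h2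
    omega
  rw [h4, h1, mul_comm, ← smul_eq_mul, ← Finset.sum_const]
  refine (Finset.sum_le_sum ?_).trans (Finset.sum_le_sum_of_subset (Finset.filter_subset _ _))
  intro e he
  rw [Finset.mem_filter] at he
  have h6 : (Finset.univ.filter fun u => f e.1 u = f e.1 e.2) =
      insert e.2 (Finset.univ.filter fun u => e.2 ≠ u ∧ f e.1 e.2 = f e.1 u) := by
    ext u
    simp only [Finset.mem_filter, Finset.mem_univ, true_and, Finset.mem_insert]
    constructor
    · intro hu
      by_cases hue : u = e.2
      · exact Or.inl hue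
      · exact Or.inr ⟨fun h => hue h.symm, hu.symm⟩
    · rintro (rfl | hu)
      · rfl
      · exact hu.2.symm
  have h7 := he.2
  rw [h6] at h7
  have h8 := Finset.card_insert_le e.2 (Finset.univ.filter fun u => e.2 ≠ u ∧ f e.1 e.2 = f e.1 u)
  omega

open Classical in
theorem conf_card {n1 m : ℕ} (f : Fin 8 → Fin m → Fin n1) (h : ℕ) :
    ∀ e ∈ lowE f h, ((lowE f h).filter (fun e' => conf f e e')).card ≤ 8 * h ^ 2 := by
  intro e he
  have hdeg : (Finset.univ.filter fun u => f e.1 u = f e.1 e.2).card ≤ h := by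
    rw [lowE, Finset.mem_filter] at he
    exact he.2
  have hsub : (lowE f h).filter (fun e' => conf f e e') ⊆
      (Finset.univ.filter fun u => f e.1 u = f e.1 e.2).biUnion
        (fun u => (Finset.univ : Finset (Fin 8)).biUnion
          (fun a => (lowE f h).filter (fun e' => e'.1 = a ∧ f a u = f a e'.2))) := by
    intro e' he'
    rw [Finset.mem_filter] at he'
    obtain ⟨he'L, u, hu1, hu2⟩ := he'
    rw [Finset.mem_biUnion]
    refine ⟨u, Finset.mem_filter.2 ⟨Finset.mem_univ _, hu1⟩, ?_⟩
    rw [Finset.mem_biUnion]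
    exact ⟨e'.1, Finset.mem_univ _, Finset.mem_filter.2 ⟨he'L, rfl, hu2⟩⟩
  have hin : ∀ (u : Fin m) (a : Fin 8), ((lowE f h).filter (fun e' => e'.1 = a ∧ f a u = f a e'.2)).card ≤ h := by
    intro u a
    rcases Finset.eq_empty_or_nonempty ((lowE f h).filter (fun e' => e'.1 = a ∧ f a u = f a e'.2)) with h0 | ⟨e', he'⟩
    · rw [h0]; simp
    · rw [Finset.mem_filter] at he'
      obtain ⟨he'L, ha, hfa⟩ := he'
      rw [lowE, Finset.mem_filter] at he'L
      have hle : ((lowE f h).filter (fun e' => e'.1 = a ∧ f a u = f a e'.2)).card ≤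
          (Finset.univ.filter fun u => f e'.1 u = f e'.1 e'.2).card := by
        apply Finset.card_le_card_of_injOn (fun x => x.2)
        · intro x hx
          rw [Finset.mem_coe, Finset.mem_filter] at hx
          obtain ⟨_, hxa, hxf⟩ := hx
          rw [Finset.mem_coe, Finset.mem_filter]
          refine ⟨Finset.mem_univ _, ?_⟩
          show f e'.1 x.2 = f e'.1 e'.2
          rw [ha, ← hfa, hxf]
        · intro x hx y hy hxy
          rw [Finset.mem_coe, Finset.mem_filter] at hx hy
          exact Prod.ext (hx.2.1.trans hy.2.1.symm) hxy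
      exact hle.trans he'L.2
  calc ((lowE f h).filter (fun e' => conf f e e')).card ≤ _ := Finset.card_le_card hsub
    _ ≤ ∑ u ∈ (Finset.univ.filter fun u => f e.1 u = f e.1 e.2), ((Finset.univ : Finset (Fin 8)).biUnion
          (fun a => (lowE f h).filter (fun e' => e'.1 = a ∧ f a u = f a e'.2))).card := Finset.card_biUnion_le
    _ ≤ ∑ u ∈ (Finset.univ.filter fun u => f e.1 u = f e.1 e.2), 8 * h := by
        apply Finset.sum_le_sum
        intro u _
        refine Finset.card_biUnion_le.trans ?_
        calc ∑ a : Fin 8, ((lowE f h).filter (fun e' => e'.1 = a ∧ f a u = f a e'.2)).card ≤ ∑ a : Fin 8, h :=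
              Finset.sum_le_sum fun a _ => hin u a
          _ = 8 * h := by simp
    _ = (Finset.univ.filter fun u => f e.1 u = f e.1 e.2).card * (8 * h) := by rw [Finset.sum_const, smul_eq_mul]
    _ ≤ h * (8 * h) := Nat.mul_le_mul_right _ hdeg
    _ = 8 * h ^ 2 := by ring

/-- Conflict free sets of edges are good. -/
theorem indep_good {n1 m : ℕ} (f : Fin 8 → Fin m → Fin n1) (T : Finset (Fin 8 × Fin m))
    (hT : ∀ e ∈ T, ∀ e' ∈ T, e ≠ e' → ¬ conf f e e') :
    (∀ e ∈ T, ∀ e' ∈ T, e.1 = e'.1 → f e.1 e.2 = f e'.1 e'.2 → e = e') ∧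
    ∀ J : Finset (Fin m), J.card < (bdf f J).card → ∃ v ∈ bdf f J, ∀ e ∈ T, (e.1, f e.1 e.2) ≠ v := by
  classical
  constructor
  · intro e he e' he' h1 h2
    by_contra hne
    refine hT e he e' he' hne ⟨e.2, rfl, ?_⟩
    rw [← h1]
    rw [← h1] at h2
    exact h2
  · intro J hJ
    by_contra hcon
    push Not at hcon
    -- choose the pigeon of each boundary hole
    have hu : ∀ v : Fin 8 × Fin n1, v ∈ bdf f J → ∃ u ∈ J, f v.1 u = v.2 := by
      intro v hv
      rw [bdf, Finset.mem_filter] at hv
      obtain ⟨u, hu⟩ := Finset.card_eq_one.1 hv.2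
      have : u ∈ J.filter fun u => f v.1 u = v.2 := by rw [hu]; exact Finset.mem_singleton_self _
      exact ⟨u, (Finset.mem_filter.1 this).1, (Finset.mem_filter.1 this).2⟩
    have hex : ∃ g : Fin 8 × Fin n1 → Fin m, ∀ v ∈ bdf f J, g v ∈ J ∧ f v.1 (g v) = v.2 := by
      rcases Finset.eq_empty_or_nonempty (bdf f J) with h0 | ⟨v0, hv0⟩
      · rw [h0] at hJ; simp at hJ
      · obtain ⟨u0, _⟩ := hu v0 hv0
        refine ⟨fun v => if hv : v ∈ bdf f J then Classical.choose (hu v hv) else u0, ?_⟩
        intro v hv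
        simp only [hv, dif_pos]
        exact Classical.choose_spec (hu v hv)
    obtain ⟨g, hg⟩ := hex
    have hle : (bdf f J).card ≤ J.card := by
      apply Finset.card_le_card_of_injOn g
      · intro v hv
        exact (hg v hv).1
      · intro v hv v' hv' hvv
        by_contra hne
        obtain ⟨e, heT, hev⟩ := hcon v hv
        obtain ⟨e', heT', hev'⟩ := hcon v' hv'
        have hee : e ≠ e' := by
          rintro rfl
          exact hne (hev.symm.trans hev')
        refine hT e heT e' heT' hee ⟨g v, ?_, ?_⟩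
        · have := (hg v hv).2
          rw [← hev] at this
          simpa [hev] using this
        · have := (hg v' hv').2
          rw [← hvv] at this
          rw [← hev'] at this
          simpa using this
    omega

open Classical in
theorem gr_pairs {n1 m : ℕ} :
    4 * (Finset.univ.filter fun f : Fin 8 → Fin m → Fin n1 => 32 * m ^ 2 < n1 * pairs f).card ≤ (n1 ^ m) ^ 8 := by
  have hN : Fintype.card (Fin 8 → Fin m → Fin n1) = (n1 ^ m) ^ 8 := by simp
  rcases Nat.eq_zero_or_pos m with hm0 | hmpos
  · have : (Finset.univ.filter fun f : Fin 8 → Fin m → Fin n1 => 32 * m ^ 2 < n1 * pairs f) = ∅ := by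
      rw [Finset.filter_eq_empty_iff]
      intro f _
      subst hm0
      have : pairs f = 0 := by
        rw [pairs, Finset.card_eq_zero, Finset.filter_eq_empty_iff]
        rintro ⟨⟨_, u⟩, _⟩
        exact u.elim0
      rw [this]; simp
    rw [this]; simp
  -- one triple
  have hone : ∀ p : (Fin 8 × Fin m) × Fin m, p.1.2 ≠ p.2 →
      n1 * (Finset.univ.filter fun f : Fin 8 → Fin m → Fin n1 => f p.1.1 p.1.2 = f p.1.1 p.2).card ≤ (n1 ^ m) ^ 8 := by
    rintro ⟨⟨a, u⟩, u'⟩ hne
    simp only at hne
    have h1 : ((Finset.univ : Finset (Fin n1)) ×ˢ (Finset.univ.filter fun f : Fin 8 → Fin m → Fin n1 => f a u = f a u')).card ≤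
        (Finset.univ : Finset (Fin 8 → Fin m → Fin n1)).card := by
      apply Finset.card_le_card_of_injOn (fun q => Function.update q.2 a (Function.update (q.2 a) u q.1))
      · intro q _
        exact Finset.mem_coe.2 (Finset.mem_univ _)
      · rintro ⟨c, f⟩ hf ⟨c', f'⟩ hf' heq
        simp only [Finset.coe_product, Set.mem_prod, Finset.mem_coe, Finset.mem_filter, Finset.mem_univ, true_and] at hf hf'
        simp only at heq
        have h2 : Function.update (f a) u c = Function.update (f' a) u c' := by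
          have := congrFun heq a
          simpa using this
        have hc : c = c' := by
          have := congrFun h2 u
          simpa using this
        have hfa : f a = f' a := by
          funext x
          by_cases hx : x = u
          · subst hx
            have h3 := congrFun h2 u'
            rw [Function.update_of_ne (Ne.symm hne), Function.update_of_ne (Ne.symm hne)] at h3
            rw [hf, hf', h3]
          · have h3 := congrFun h2 x
            rwa [Function.update_of_ne hx, Function.update_of_ne hx] at h3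
        have hff : f = f' := by
          funext b
          by_cases hb : b = a
          · subst hb; exact hfa
          · have := congrFun heq b
            rwa [Function.update_of_ne hb, Function.update_of_ne hb] at this
        rw [hc, hff]
    rw [Finset.card_product, Finset.card_univ, Finset.card_univ, hN, Fintype.card_fin] at h1
    exact h1
  have hsum : n1 * ∑ f : Fin 8 → Fin m → Fin n1, pairs f ≤ 8 * m ^ 2 * (n1 ^ m) ^ 8 := by
    have h1 : ∑ f : Fin 8 → Fin m → Fin n1, pairs f =
        ∑ p : (Fin 8 × Fin m) × Fin m, (Finset.univ.filter fun f : Fin 8 → Fin m → Fin n1 =>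
          p.1.2 ≠ p.2 ∧ f p.1.1 p.1.2 = f p.1.1 p.2).card := by
      simp only [pairs, Finset.card_filter]
      rw [Finset.sum_comm]
    rw [h1, Finset.mul_sum]
    have h2 : ∀ p ∈ (Finset.univ : Finset ((Fin 8 × Fin m) × Fin m)),
        n1 * (Finset.univ.filter fun f : Fin 8 → Fin m → Fin n1 =>
          p.1.2 ≠ p.2 ∧ f p.1.1 p.1.2 = f p.1.1 p.2).card ≤ (n1 ^ m) ^ 8 := by
      intro p _
      by_cases hp : p.1.2 ≠ p.2
      · have : (Finset.univ.filter fun f : Fin 8 → Fin m → Fin n1 => p.1.2 ≠ p.2 ∧ f p.1.1 p.1.2 = f p.1.1 p.2) =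
            (Finset.univ.filter fun f : Fin 8 → Fin m → Fin n1 => f p.1.1 p.1.2 = f p.1.1 p.2) := by
          ext f; simp [hp]
        rw [this]
        exact hone p hp
      · have : (Finset.univ.filter fun f : Fin 8 → Fin m → Fin n1 => p.1.2 ≠ p.2 ∧ f p.1.1 p.1.2 = f p.1.1 p.2) = ∅ := by
          ext f; simp [hp]
        rw [this]; simp
    refine (Finset.sum_le_sum h2).trans ?_
    rw [Finset.sum_const, smul_eq_mul]
    apply Nat.mul_le_mul_right
    simp
    apply le_of_eq
    ring
  -- Markov
  have hmark : (Finset.univ.filter fun f : Fin 8 → Fin m → Fin n1 => 32 * m ^ 2 < n1 * pairs f).card * (32 * m ^ 2) ≤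
      n1 * ∑ f : Fin 8 → Fin m → Fin n1, pairs f := by
    rw [Finset.mul_sum, ← smul_eq_mul, ← Finset.sum_const]
    refine (Finset.sum_le_sum ?_).trans (Finset.sum_le_sum_of_subset (Finset.filter_subset _ _))
    intro f hf
    exact (Finset.mem_filter.1 hf).2.le
  have hm2 : 0 < 8 * m ^ 2 := by positivity
  have h5 : (4 * (Finset.univ.filter fun f : Fin 8 → Fin m → Fin n1 => 32 * m ^ 2 < n1 * pairs f).card) * (8 * m ^ 2) ≤
      (n1 ^ m) ^ 8 * (8 * m ^ 2) := by
    calc (4 * (Finset.univ.filter fun f : Fin 8 → Fin m → Fin n1 => 32 * m ^ 2 < n1 * pairs f).card) * (8 * m ^ 2)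
        = (Finset.univ.filter fun f : Fin 8 → Fin m → Fin n1 => 32 * m ^ 2 < n1 * pairs f).card * (32 * m ^ 2) := by ring
      _ ≤ _ := hmark.trans hsum
      _ = _ := by ring
  exact Nat.le_of_mul_le_mul_right h5 hm2

/-- Existence of the graph, with few pairs. -/
theorem graph_exists2 (C : ℕ) (hC : 1 ≤ C) {n1 m : ℕ} (hn : 1 ≤ n1) (hm : m ≤ C * n1) :
    ∃ f : Fin 8 → Fin m → Fin n1, (∀ J : Finset (Fin m), J.Nonempty → (16 * 2187 * C) ^ 2 * J.card ≤ n1 →
      J.card < (bdf f J).card) ∧ n1 * pairs f ≤ 32 * m ^ 2 := by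
  classical
  by_contra hcon
  push Not at hcon
  have hall : (Finset.univ : Finset (Fin 8 → Fin m → Fin n1)) ⊆ (Finset.univ.filter fun f : Fin 8 → Fin m → Fin n1 =>
      ∃ J : Finset (Fin m), J.Nonempty ∧ (16 * 2187 * C) ^ 2 * J.card ≤ n1 ∧
        6 ≤ (Finset.univ.filter fun a => (J.image (f a)).card ≤ 3 * J.card / 4).card) ∪
      (Finset.univ.filter fun f : Fin 8 → Fin m → Fin n1 => 32 * m ^ 2 < n1 * pairs f) := by
    intro f _
    rw [Finset.mem_union]
    by_cases hf : ∀ J : Finset (Fin m), J.Nonempty → (16 * 2187 * C) ^ 2 * J.card ≤ n1 → J.card < (bdf f J).card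
    · right
      exact Finset.mem_filter.2 ⟨Finset.mem_univ _, hcon f hf⟩
    · left
      push Not at hf
      obtain ⟨J, hJ, hJn, hJb⟩ := hf
      refine Finset.mem_filter.2 ⟨Finset.mem_univ _, J, hJ, hJn, ?_⟩
      by_contra h
      exact absurd (gr_bd f J hJ h) (by omega)
  have h1 := gr_bad C hC hn hm
  have h2 := gr_pairs (n1 := n1) (m := m)
  have h3 := (Finset.card_le_card hall).trans (Finset.card_union_le _ _)
  have hcard : (Finset.univ : Finset (Fin 8 → Fin m → Fin n1)).card = (n1 ^ m) ^ 8 := by simp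
  rw [hcard] at h3
  have h1' : 8 * (Finset.univ.filter fun f : Fin 8 → Fin m → Fin n1 =>
      ∃ J : Finset (Fin m), J.Nonempty ∧ (16 * 2187 * C) ^ 2 * J.card ≤ n1 ∧
        6 ≤ (Finset.univ.filter fun a => (J.image (f a)).card ≤ 3 * J.card / 4).card).card ≤ (n1 ^ m) ^ 8 := by
    have h4 : ((8 * (Finset.univ.filter fun f : Fin 8 → Fin m → Fin n1 =>
      ∃ J : Finset (Fin m), J.Nonempty ∧ (16 * 2187 * C) ^ 2 * J.card ≤ n1 ∧
        6 ≤ (Finset.univ.filter fun a => (J.image (f a)).card ≤ 3 * J.card / 4).card).card : ℕ) : ℝ) ≤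
        (((n1 ^ m) ^ 8 : ℕ) : ℝ) := by
      push_cast
      convert h1
    exact_mod_cast h4
  have hN : 0 < (n1 ^ m) ^ 8 := by positivity
  omega

end H92PH
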