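import Mathlib

/-!
# Numerics of the count for the pigeonhole principle (thmC route)
-/

set_option autoImplicit false

namespace H92PH

open Finset

/-- truncated binomial sum: `D ≥ 2 q M` implies `∑_(i ≤ D) C(M,i) q^i ≥ (1+q)^M / 2`. -/
theorem num_trunc {M D : ℕ} {q : ℝ} (hq : 0 < q) (hD : 2 * q * M ≤ D) :
    (1 + q) ^ M ≤ 2 * ∑ i ∈ Finset.range (D + 1), (M.choose i : ℝ) * q ^ i := by
  have hfull : ∀ x : ℝ, (1 + x) ^ M = ∑ i ∈ Finset.range (M + 1), (M.choose i : ℝ) * x ^ i := by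
    intro x
    rw [add_comm, add_pow]
    apply Finset.sum_congr rfl
    intro i _
    rw [one_pow, mul_one, mul_comm]
  -- tail
  have htail : ∑ i ∈ (Finset.range (M + 1)).filter (fun i => ¬ i < D + 1), (M.choose i : ℝ) * q ^ i ≤
      (1 / 2) ^ D * (1 / 2) * (1 + q) ^ M * (1 + q) ^ M := by
    have h1 : ∀ i ∈ (Finset.range (M + 1)).filter (fun i => ¬ i < D + 1), (M.choose i : ℝ) * q ^ i ≤
        (1 / 2) ^ D * (1 / 2) * ((M.choose i : ℝ) * (2 * q) ^ i) := by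
      intro i hi
      rw [Finset.mem_filter] at hi
      have h2 : (1 : ℝ) ≤ (1 / 2) ^ D * (1 / 2) * 2 ^ i := by
        have h3 : (2 : ℝ) ^ (D + 1) ≤ 2 ^ i := pow_le_pow_right₀ (by norm_num) (by omega)
        have h4 : (1 / 2 : ℝ) ^ D * (1 / 2) * 2 ^ (D + 1) = 1 := by
          rw [pow_succ, one_div, inv_pow]
          have : (2 : ℝ) ^ D ≠ 0 := by positivity
          field_simp
        calc (1 : ℝ) = (1 / 2 : ℝ) ^ D * (1 / 2) * 2 ^ (D + 1) := h4.symm
          _ ≤ _ := mul_le_mul_of_nonneg_left h3 (by positivity)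
      have h5 : 0 ≤ (M.choose i : ℝ) * q ^ i := by positivity
      calc (M.choose i : ℝ) * q ^ i = 1 * ((M.choose i : ℝ) * q ^ i) := by ring
        _ ≤ ((1 / 2) ^ D * (1 / 2) * 2 ^ i) * ((M.choose i : ℝ) * q ^ i) := mul_le_mul_of_nonneg_right h2 h5
        _ = _ := by rw [mul_pow]; ring
    calc ∑ i ∈ (Finset.range (M + 1)).filter (fun i => ¬ i < D + 1), (M.choose i : ℝ) * q ^ i
        ≤ ∑ i ∈ (Finset.range (M + 1)).filter (fun i => ¬ i < D + 1), (1 / 2) ^ D * (1 / 2) * ((M.choose i : ℝ) * (2 * q) ^ i) :=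
          Finset.sum_le_sum h1
      _ ≤ ∑ i ∈ Finset.range (M + 1), (1 / 2) ^ D * (1 / 2) * ((M.choose i : ℝ) * (2 * q) ^ i) := by
          apply Finset.sum_le_sum_of_subset_of_nonneg (Finset.filter_subset _ _)
          intro i _ _
          positivity
      _ = (1 / 2) ^ D * (1 / 2) * (1 + 2 * q) ^ M := by rw [← Finset.mul_sum, ← hfull]
      _ ≤ (1 / 2) ^ D * (1 / 2) * ((1 + q) ^ M * (1 + q) ^ M) := by
          apply mul_le_mul_of_nonneg_left _ (by positivity)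
          rw [← mul_pow]
          apply pow_le_pow_left₀ (by positivity)
          nlinarith
      _ = _ := by ring
  have hexp : (1 + q) ^ M ≤ 2 ^ D := by
    have h1 : (1 + q) ^ M ≤ Real.exp (q * M) := by
      have h2 : 1 + q ≤ Real.exp q := by have := Real.add_one_le_exp q; linarith
      calc (1 + q) ^ M ≤ Real.exp q ^ M := pow_le_pow_left₀ (by positivity) h2 M
        _ = Real.exp (q * M) := by rw [← Real.exp_nat_mul]; ring_nf
    have h3 : Real.exp (q * M) ≤ 2 ^ D := by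
      have h4 : q * M ≤ D * Real.log 2 := by
        have h5 : (1 / 2 : ℝ) ≤ Real.log 2 := by have := Real.log_two_gt_d9; linarith
        have h6 : (0 : ℝ) ≤ D := Nat.cast_nonneg _
        nlinarith
      calc Real.exp (q * M) ≤ Real.exp (D * Real.log 2) := Real.exp_le_exp.2 h4
        _ = 2 ^ D := by rw [Real.exp_nat_mul, Real.exp_log (by norm_num)]
    exact h1.trans h3
  have hsplit := Finset.sum_filter_add_sum_filter_not (Finset.range (M + 1)) (fun i => i < D + 1)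
    (fun i => (M.choose i : ℝ) * q ^ i)
  have hhead : ∑ i ∈ (Finset.range (M + 1)).filter (fun i => i < D + 1), (M.choose i : ℝ) * q ^ i ≤
      ∑ i ∈ Finset.range (D + 1), (M.choose i : ℝ) * q ^ i := by
    apply Finset.sum_le_sum_of_subset_of_nonneg
    · intro i hi
      rw [Finset.mem_filter] at hi
      exact Finset.mem_range.2 hi.2
    · intro i _ _
      positivity
  have htail2 : (1 / 2 : ℝ) ^ D * (1 / 2) * (1 + q) ^ M * (1 + q) ^ M ≤ (1 / 2) * (1 + q) ^ M := by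
    have h1 : (1 / 2 : ℝ) ^ D * (1 + q) ^ M ≤ 1 := by
      calc (1 / 2 : ℝ) ^ D * (1 + q) ^ M ≤ (1 / 2 : ℝ) ^ D * 2 ^ D := mul_le_mul_of_nonneg_left hexp (by positivity)
        _ = 1 := by rw [← mul_pow]; norm_num
    have h2 : 0 ≤ (1 / 2 : ℝ) * (1 + q) ^ M := by positivity
    calc (1 / 2 : ℝ) ^ D * (1 / 2) * (1 + q) ^ M * (1 + q) ^ M
        = ((1 / 2 : ℝ) ^ D * (1 + q) ^ M) * ((1 / 2) * (1 + q) ^ M) := by ring
      _ ≤ 1 * ((1 / 2) * (1 + q) ^ M) := mul_le_mul_of_nonneg_right h1 h2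
      _ = _ := one_mul _
  have hf := hfull q
  linarith

/-- the core inequality. -/
theorem num_core {M M2 w D R : ℕ} {q N : ℝ} (hq : 0 < q) (hq1 : q < 1) (hN : 0 ≤ N) (hM : M ≤ M2 + R) (hM2 : M2 ≤ M)
    (hR : 4 * R ≤ w) (hD : 2 * q * M ≤ D)
    (h : ∀ D' ≤ D, (M2.choose D' : ℝ) * q ^ D' ≤ N * ((1 - q / 2) ^ w * (1 + q) ^ M)) :
    Real.exp (q * w / 4) ≤ 2 * (D + 1) * N := by
  have hM2r : 2 * q * M2 ≤ D := by
    have : (M2 : ℝ) ≤ M := by exact_mod_cast hM2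
    nlinarith
  have h1 := num_trunc hq hM2r
  have h2 : ∑ i ∈ Finset.range (D + 1), (M2.choose i : ℝ) * q ^ i ≤ (D + 1) * (N * ((1 - q / 2) ^ w * (1 + q) ^ M)) := by
    calc ∑ i ∈ Finset.range (D + 1), (M2.choose i : ℝ) * q ^ i ≤
        ∑ i ∈ Finset.range (D + 1), (N * ((1 - q / 2) ^ w * (1 + q) ^ M)) :=
          Finset.sum_le_sum fun i hi => h i (by have := Finset.mem_range.1 hi; omega)
      _ = _ := by rw [Finset.sum_const, Finset.card_range, nsmul_eq_mul]; push_cast; ring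
  have h3 : (1 + q) ^ M ≤ (1 + q) ^ M2 * (1 + q) ^ R := by
    rw [← pow_add]
    exact pow_le_pow_right₀ (by linarith) hM
  have h4 : (1 + q) ^ R ≤ Real.exp (q * w / 4) := by
    have h5 : 1 + q ≤ Real.exp q := by have := Real.add_one_le_exp q; linarith
    calc (1 + q) ^ R ≤ Real.exp q ^ R := pow_le_pow_left₀ (by positivity) h5 R
      _ = Real.exp (R * q) := by rw [← Real.exp_nat_mul]
      _ ≤ Real.exp (q * w / 4) := by
          apply Real.exp_le_exp.2
          have : (4 * R : ℝ) ≤ w := by exact_mod_cast hR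
          nlinarith
  have h6 : (1 - q / 2) ^ w ≤ Real.exp (-(q * w / 2)) := by
    have h7 : 1 - q / 2 ≤ Real.exp (-(q / 2)) := by have := Real.add_one_le_exp (-(q / 2)); linarith
    calc (1 - q / 2) ^ w ≤ Real.exp (-(q / 2)) ^ w := pow_le_pow_left₀ (by linarith) h7 w
      _ = Real.exp (w * (-(q / 2))) := by rw [← Real.exp_nat_mul]
      _ = _ := by congr 1; ring
  have h8 : (1 - q / 2) ^ w * (1 + q) ^ M ≤ Real.exp (-(q * w / 2)) * ((1 + q) ^ M2 * Real.exp (q * w / 4)) := by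
    apply mul_le_mul h6 _ (by positivity) (Real.exp_pos _).le
    exact h3.trans (mul_le_mul_of_nonneg_left h4 (by positivity))
  have h9 : Real.exp (-(q * w / 2)) * ((1 + q) ^ M2 * Real.exp (q * w / 4)) = (1 + q) ^ M2 * Real.exp (-(q * w / 4)) := by
    have : Real.exp (-(q * w / 4)) = Real.exp (-(q * w / 2)) * Real.exp (q * w / 4) := by
      rw [← Real.exp_add]; congr 1; ring
    rw [this]; ring
  have hMpos : 0 < (1 + q) ^ M2 := by positivity
  have h10 : (1 + q) ^ M2 ≤ (2 * (D + 1) * N * Real.exp (-(q * w / 4))) * (1 + q) ^ M2 := by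
    calc (1 + q) ^ M2 ≤ 2 * ((D + 1) * (N * ((1 - q / 2) ^ w * (1 + q) ^ M))) := h1.trans (by linarith)
      _ ≤ 2 * ((D + 1) * (N * ((1 + q) ^ M2 * Real.exp (-(q * w / 4))))) := by
          rw [← h9]
          have : (0 : ℝ) ≤ D + 1 := by positivity
          apply mul_le_mul_of_nonneg_left _ (by norm_num)
          apply mul_le_mul_of_nonneg_left _ this
          exact mul_le_mul_of_nonneg_left h8 hN
      _ = _ := by ring
  have h11 : 1 ≤ 2 * (D + 1) * N * Real.exp (-(q * w / 4)) := by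
    have : 1 * (1 + q) ^ M2 ≤ (2 * (D + 1) * N * Real.exp (-(q * w / 4))) * (1 + q) ^ M2 := by rw [one_mul]; exact h10
    exact le_of_mul_le_mul_right this hMpos
  rw [Real.exp_neg, ← div_eq_mul_inv, le_div_iff₀ (Real.exp_pos _), one_mul] at h11
  exact h11

/-- Choice of the parameters. -/
theorem ph_num (C f : ℕ) (hC : 1 ≤ C) : ∃ (c : ℝ) (n0 : ℕ), 0 < c ∧ 16 ≤ n0 ∧ ∀ n m : ℕ, n0 ≤ n → n < m → m ≤ C * n →
    ∃ (w t D h R : ℕ) (q : ℝ), 0 < q ∧ q < 1 ∧ 1 ≤ h ∧ c * n ≤ t ∧ 32 * m ^ 2 ≤ (n / 8) * h * R ∧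
      D + (f + 1) * (1 * w + t) ≤ n / 8 / (16 * 2187 * (16 * C)) ^ 2 / 16 ∧
      D + (1 * w + t) + 8 ≤ n / 8 / (16 * 2187 * (16 * C)) ^ 2 / 16 ∧
      ∀ N : ℕ, (∀ D' ≤ D, ((8 * m - R - D' * (8 * h ^ 2)).choose D' : ℝ) * q ^ D' ≤
        N * ((1 - q ^ 1 / 2) ^ w * (1 + q) ^ (8 * m))) → (2 : ℝ) ^ (c * n) ≤ N := by
  obtain ⟨A, hA⟩ : ∃ A : ℕ, A = (16 * 2187 * (16 * C)) ^ 2 := ⟨_, rfl⟩
  have hA1 : 1 ≤ A := by rw [hA]; exact Nat.one_le_pow _ _ (by omega)
  obtain ⟨W, hW⟩ : ∃ W : ℕ, W = 2048 * A * (f + 1) := ⟨_, rfl⟩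
  have hW1 : 1 ≤ W := by rw [hW]; exact Nat.one_le_iff_ne_zero.2 (by positivity)
  obtain ⟨h, hh⟩ : ∃ h : ℕ, h = 8192 * C ^ 2 * W := ⟨_, rfl⟩
  have hh1 : 1 ≤ h := by rw [hh]; exact Nat.one_le_iff_ne_zero.2 (by positivity)
  obtain ⟨Q, hQ⟩ : ∃ Q : ℕ, Q = 2048 * C * h ^ 2 * W := ⟨_, rfl⟩
  have hQ1 : 2 ≤ Q := by
    rw [hQ]
    have : 1 ≤ C * h ^ 2 * W := Nat.one_le_iff_ne_zero.2 (by positivity)
    nlinarith
  -- large w
  obtain ⟨w0, hw0⟩ : ∃ w0 : ℕ, w0 = 1024 * Q ^ 2 * (64 * h ^ 2) := ⟨_, rfl⟩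
  refine ⟨1 / (8 * Q * W), 16 + 256 * A * (32 + 8 * (f + 1) + w0) * W, ?_, by omega, ?_⟩
  · have h1 : (0 : ℝ) < Q := by exact_mod_cast (by omega : 0 < Q)
    have h2 : (0 : ℝ) < W := by exact_mod_cast (by omega : 0 < W)
    positivity
  intro n m hn hnm hmC
  obtain ⟨n1, hn1⟩ : ∃ n1 : ℕ, n1 = n / 8 := ⟨_, rfl⟩
  obtain ⟨B, hB⟩ : ∃ B : ℕ, B = n1 / A := ⟨_, rfl⟩
  obtain ⟨E, hE⟩ : ∃ E : ℕ, E = B / 16 := ⟨_, rfl⟩
  have hEn : n < 128 * A * (E + 1) := by
    have h1 : n < 8 * (n1 + 1) := by omega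
    have h2 : n1 < A * (B + 1) := by
      rw [hB]
      exact Nat.lt_mul_div_succ n1 (by omega)
    have h3 : B + 1 ≤ 16 * (E + 1) := by omega
    have h4 : A * (B + 1) ≤ A * (16 * (E + 1)) := Nat.mul_le_mul_left _ h3
    have h5 : 8 * (A * (16 * (E + 1))) = 128 * A * (E + 1) := by ring
    omega
  have hbig : 256 * A * (32 + 8 * (f + 1) + w0) * W ≤ n := by omega
  have hElarge : (32 + 8 * (f + 1) + w0) ≤ E := by
    by_contra hcon
    push Not at hcon
    have h1 : E + 1 ≤ 32 + 8 * (f + 1) + w0 := hcon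
    have h2 : 128 * A * (E + 1) ≤ 128 * A * (32 + 8 * (f + 1) + w0) := Nat.mul_le_mul_left _ h1
    have h3 : 256 * A * (32 + 8 * (f + 1) + w0) * 1 ≤ 256 * A * (32 + 8 * (f + 1) + w0) * W := Nat.mul_le_mul_left _ hW1
    have h4 : 128 * A * (32 + 8 * (f + 1) + w0) ≤ 256 * A * (32 + 8 * (f + 1) + w0) := by
      apply Nat.mul_le_mul_right; omega
    omega
  have hE2 : n ≤ 256 * A * E := by
    have h1 : 128 * A * (E + 1) ≤ 128 * A * (2 * E) := Nat.mul_le_mul_left _ (by omega)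
    have h2 : 128 * A * (2 * E) = 256 * A * E := by ring
    omega
  obtain ⟨w, hw⟩ : ∃ w : ℕ, w = E / (4 * (f + 1)) := ⟨_, rfl⟩
  have hwE : w * (4 * (f + 1)) ≤ E := by rw [hw]; exact Nat.div_mul_le_self _ _
  have hEw : E ≤ 8 * (f + 1) * w := by
    have h1 : E < 4 * (f + 1) * (w + 1) := by rw [hw]; exact Nat.lt_mul_div_succ E (by omega)
    have h2 : 1 ≤ w := by
      rw [hw, Nat.le_div_iff_mul_le (by omega)]; omega
    nlinarith
  have hnW : n ≤ W * w := by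
    calc n ≤ 256 * A * E := hE2
      _ ≤ 256 * A * (8 * (f + 1) * w) := Nat.mul_le_mul_left _ hEw
      _ = W * w := by rw [hW]; ring
  have hw0w : w0 ≤ w := by
    -- W * w0 ≤ n ≤ W * w
    have h1 : W * w0 ≤ n := by
      calc W * w0 ≤ (256 * A * (32 + 8 * (f + 1) + w0)) * W := by
            rw [mul_comm]
            apply Nat.mul_le_mul_right
            have : 1 * w0 ≤ (256 * A) * (32 + 8 * (f + 1) + w0) := Nat.mul_le_mul (by omega) (by omega)
            omega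
        _ ≤ n := hbig
    exact Nat.le_of_mul_le_mul_left (h1.trans hnW) (by omega)
  have h64 : 1 ≤ 64 * h ^ 2 := Nat.one_le_iff_ne_zero.2 (by positivity)
  have hQsq : 1 ≤ Q ^ 2 := Nat.one_le_pow _ _ (by omega)
  have hw64 : 64 * h ^ 2 ≤ w := by
    calc 64 * h ^ 2 = 1 * (64 * h ^ 2) := by ring
      _ ≤ (1024 * Q ^ 2) * (64 * h ^ 2) := Nat.mul_le_mul_right _ (by omega)
      _ = w0 := by rw [hw0]
      _ ≤ w := hw0w
  have hw1024 : 1024 * Q ^ 2 ≤ w := by
    calc 1024 * Q ^ 2 = 1024 * Q ^ 2 * 1 := by ring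
      _ ≤ (1024 * Q ^ 2) * (64 * h ^ 2) := Nat.mul_le_mul_left _ h64
      _ = w0 := by rw [hw0]
      _ ≤ w := hw0w
  obtain ⟨D, hD⟩ : ∃ D : ℕ, D = w / (64 * h ^ 2) := ⟨_, rfl⟩
  have hDw : D * (64 * h ^ 2) ≤ w := by rw [hD]; exact Nat.div_mul_le_self _ _
  have hwD : w ≤ 128 * h ^ 2 * D := by
    have h1 : w < 64 * h ^ 2 * (D + 1) := by rw [hD]; exact Nat.lt_mul_div_succ w (by omega)
    have h2 : 1 ≤ D := by
      rw [hD, Nat.le_div_iff_mul_le (by omega)]; omega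
    nlinarith
  have hDle : D ≤ w := by
    calc D = D * 1 := by ring
      _ ≤ D * (64 * h ^ 2) := Nat.mul_le_mul_left _ h64
      _ ≤ w := hDw
  obtain ⟨R, hR⟩ : ∃ R : ℕ, R = w / 8 := ⟨_, rfl⟩
  have hQpos : (0 : ℝ) < Q := by exact_mod_cast (by omega : 0 < Q)
  have hWpos : (0 : ℝ) < W := by exact_mod_cast (by omega : 0 < W)
  have hnWr : (n : ℝ) ≤ W * w := by exact_mod_cast hnW
  refine ⟨w, w, D, h, R, 1 / Q, by positivity, ?_, hh1, ?_, ?_, ?_, ?_, ?_⟩
  · rw [div_lt_one hQpos]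
    exact_mod_cast (by omega : 1 < Q)
  · -- c n ≤ w
    rw [div_mul_eq_mul_div, one_mul, div_le_iff₀ (by positivity)]
    have h1 : (1 : ℝ) ≤ 8 * Q := by
      have : (2 : ℝ) ≤ Q := by exact_mod_cast hQ1
      linarith
    have h2 : (0 : ℝ) ≤ w := Nat.cast_nonneg _
    calc (n : ℝ) ≤ W * w := hnWr
      _ = 1 * (W * w) := by ring
      _ ≤ (8 * Q) * (W * w) := mul_le_mul_of_nonneg_right h1 (by positivity)
      _ = _ := by ring
  · -- 32 m^2 ≤ n1 h R
    have h1 : n ≤ 16 * (n / 8) := by omega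
    have h2 : w ≤ 16 * R := by omega
    have h3 : m ^ 2 ≤ (C * n) ^ 2 := Nat.pow_le_pow_left hmC 2
    have h4 : n * n ≤ (16 * (n / 8)) * (W * (16 * R)) := by
      apply Nat.mul_le_mul h1
      exact hnW.trans (Nat.mul_le_mul_left _ h2)
    calc 32 * m ^ 2 ≤ 32 * (C * n) ^ 2 := Nat.mul_le_mul_left _ h3
      _ = 32 * C ^ 2 * (n * n) := by ring
      _ ≤ 32 * C ^ 2 * ((16 * (n / 8)) * (W * (16 * R))) := Nat.mul_le_mul_left _ h4
      _ = (n / 8) * (8192 * C ^ 2 * W) * R := by ring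
      _ = (n / 8) * h * R := by rw [hh]
  · rw [← hA, ← hn1, ← hB, ← hE]
    have h1 : (f + 1) * (1 * w + w) = 2 * ((f + 1) * w) := by ring
    have h2 : w * (4 * (f + 1)) = 4 * ((f + 1) * w) := by ring
    have h3 : w ≤ (f + 1) * w := Nat.le_mul_of_pos_left _ (by omega)
    omega
  · rw [← hA, ← hn1, ← hB, ← hE]
    have h2 : w * (4 * (f + 1)) = 4 * ((f + 1) * w) := by ring
    have h3 : w ≤ (f + 1) * w := Nat.le_mul_of_pos_left _ (by omega)
    omega
  · intro N hN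
    have hNr : (0 : ℝ) ≤ N := Nat.cast_nonneg _
    have hcore := num_core (M := 8 * m) (M2 := 8 * m - R - D * (8 * h ^ 2)) (w := w) (D := D) (R := R + D * (8 * h ^ 2))
      (q := 1 / Q) (N := N) (by positivity)
      (by rw [div_lt_one hQpos]; exact_mod_cast (by omega : 1 < Q)) hNr (by omega) (by omega)
      (by
        have h1 : D * (64 * h ^ 2) = 8 * (D * (8 * h ^ 2)) := by ring
        omega)
      (by
        -- 2 * (1/Q) * (8 m) ≤ D
        have h1 : 2 * 8 * m ≤ Q * D := by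
          -- 16 m ≤ 16 C n ≤ 16 C W w ≤ 16 C W 128 h^2 D = Q D
          calc 2 * 8 * m ≤ 2 * 8 * (C * n) := Nat.mul_le_mul_left _ hmC
            _ ≤ 2 * 8 * (C * (W * (128 * h ^ 2 * D))) := by
                apply Nat.mul_le_mul_left
                apply Nat.mul_le_mul_left
                exact hnW.trans (Nat.mul_le_mul_left _ hwD)
            _ = Q * D := by rw [hQ]; ring
        have h2 : (2 * 8 * m : ℝ) ≤ Q * D := by exact_mod_cast h1
        have h3 : 2 * (1 / (Q : ℝ)) * ((8 * m : ℕ) : ℝ) = (2 * 8 * m) / Q := by push_cast; ring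
        rw [h3, div_le_iff₀ hQpos]
        linarith)
      (by
        intro D' hD'
        have h1 := hN D' hD'
        rw [pow_one] at h1
        refine le_trans ?_ h1
        apply mul_le_mul_of_nonneg_right _ (by positivity)
        have h2 : (8 * m - R - D * (8 * h ^ 2)).choose D' ≤ (8 * m - R - D' * (8 * h ^ 2)).choose D' := by
          apply Nat.choose_le_choose
          have : D' * (8 * h ^ 2) ≤ D * (8 * h ^ 2) := Nat.mul_le_mul_right _ hD'
          omega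
        exact_mod_cast h2)
    -- exp(w/(4Q)) ≤ 2 (D+1) N, 2 (D+1) ≤ exp(w/(8Q))
    have hx : (1 / (Q : ℝ)) * w / 4 = w / (8 * Q) + w / (8 * Q) := by
      field_simp
      ring
    rw [hx, Real.exp_add] at hcore
    have hD1 : 2 * ((D : ℝ) + 1) ≤ Real.exp (w / (8 * Q)) := by
      have h1 : (w / (8 * Q) : ℝ) ^ 2 / 2 ≤ Real.exp (w / (8 * Q)) := by
        have := Real.pow_div_factorial_le_exp (w / (8 * Q) : ℝ) (by positivity) 2
        simpa using this
      refine le_trans ?_ h1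
      have h2 : ((1024 * Q ^ 2 : ℕ) : ℝ) ≤ w := by exact_mod_cast hw1024
      push_cast at h2
      have h3 : (D : ℝ) ≤ w := by exact_mod_cast hDle
      have h4 : (w / (8 * Q) : ℝ) ^ 2 / 2 = w * (w / (128 * Q ^ 2)) := by
        field_simp
        ring
      rw [h4]
      have h5 : (8 : ℝ) ≤ w / (128 * Q ^ 2) := by
        rw [le_div_iff₀ (by positivity)]
        linarith
      have h6 : (1 : ℝ) ≤ w := by
        have : (1 : ℝ) ≤ (Q : ℝ) ^ 2 := by exact_mod_cast hQsq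
        linarith
      nlinarith
    have hexp : Real.exp (w / (8 * Q)) ≤ N := by
      have h1 : Real.exp (w / (8 * Q)) * Real.exp (w / (8 * Q)) ≤ Real.exp (w / (8 * Q)) * N := by
        refine hcore.trans ?_
        exact mul_le_mul_of_nonneg_right hD1 hNr
      exact le_of_mul_le_mul_left h1 (Real.exp_pos _)
    refine le_trans ?_ hexp
    have h2 : (2 : ℝ) ^ (1 / (8 * (Q : ℝ) * W) * n) ≤ Real.exp (1 / (8 * (Q : ℝ) * W) * n) := by
      rw [← Real.exp_one_rpow]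
      apply Real.rpow_le_rpow (by norm_num)
      · have := Real.exp_one_gt_d9; linarith
      · positivity
    refine h2.trans (Real.exp_le_exp.2 ?_)
    rw [div_mul_eq_mul_div, one_mul, div_le_div_iff₀ (by positivity) (by positivity)]
    nlinarith

end H92PH
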