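import Pool.Agent.H92.PH.Grf
import Pool.Agent.H92.PH.Num
import Pool.Agent.H38.PH.Rf
import Pool.Agent.H38.PH.OpB
import Pool.Agent.H96.RE.ThmC

/-!
# The pigeonhole principle, semantic inference, resolution over parities plus one polynomial condition per line

Assembly of the operator (`thmPH`), the multiplier argument (`thmC`), the random graph (`ph_graph`) and the numerics (`ph_num`).
-/

set_option autoImplicit false
open scoped Classical

namespace H92PH

open SizeDegree H38PG

/-- The CNF `Φ` has a semantic refutation with `N` lines: every line is implied by a clause or by at most `f` earlier lines;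
the last line is false everywhere. -/
def SemRefutes {n m : ℕ} (e t f : ℕ) (Φ : Fin m → Clause n) (N : ℕ) : Prop :=
  ∃ l : ℕ → Line 2 n e t, 1 ≤ N ∧ (∀ x, ¬ (l (N - 1)).Holds x) ∧
    ∀ i < N, (∃ j, ∀ x, (Φ j).Holds x → (l i).Holds x) ∨
      ∃ J : Finset ℕ, J.card ≤ f ∧ (∀ j ∈ J, j < i) ∧ ∀ x, (∀ j ∈ J, (l j).Holds x) → (l i).Holds x

/-- from `0, 1` in the field to Boolean values -/
def tb {n : ℕ} (y : Fin n → ZMod 2) : SizeDegree.Pt n := fun i => decide (y i = 1)

theorem tb_val {n : ℕ} (y : Fin n → ZMod 2) (i : Fin n) : (if tb y i then (1 : ZMod 2) else 0) = y i := by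
  unfold tb
  have : ∀ z : ZMod 2, (if decide (z = 1) = true then (1 : ZMod 2) else 0) = z := by decide
  exact this (y i)

theorem pol_of_deg {n d : ℕ} {g : SizeDegree.Pt n → ZMod 2} (h : DegLE d g) :
    (fun y : Fin n → ZMod 2 => g (tb y)) ∈ H96RE.Pol n d := by
  obtain ⟨a, ha⟩ := h
  have e : (fun y : Fin n → ZMod 2 => g (tb y)) =
      ∑ T ∈ Finset.univ.filter (fun T : Finset (Fin n) => T.card ≤ d), a T • H96RE.mono T := by
    funext y
    rw [ha, Finset.sum_apply]
    refine Finset.sum_congr rfl fun T _ => ?_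
    show _ = a T * H96RE.mono T y
    congr 1
    unfold H96RE.mono
    exact Finset.prod_congr rfl fun i _ => tb_val y i
  rw [e]
  unfold H96RE.Pol
  refine Submodule.sum_mem _ fun T hT => Submodule.smul_mem _ _ (Submodule.subset_span ⟨T, ?_, rfl⟩)
  exact (Finset.mem_filter.mp hT).2

theorem pol_le {n D D' : ℕ} (h : D ≤ D') : H96RE.Pol n D ≤ H96RE.Pol n D' := by
  unfold H96RE.Pol
  refine Submodule.span_mono (Set.image_mono ?_)
  intro T hT
  have h1 : T.card ≤ D := hT
  show T.card ≤ D'
  omega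

section
variable {M m n Q : ℕ} {pg : Fin M → Fin m} {hv : Fin M → Fin n} {ho : Fin M → Fin Q}

/-- a restricted clause of the pigeonhole principle is trivial or implied by a clause on the graph -/
theorem clause_restrict (hinj : ∀ e e', pg e = pg e' → hv e = hv e' → e = e') (hho : ∀ e e', hv e = hv e' → ho e = ho e')
    (c : Clause (m * n)) (hc : (∃ i, c = pigeonClause m n i) ∨ ∃ i i' j, i ≠ i' ∧ c = holeClause m n i i' j) :
    (∀ x, c.Holds (rho pg hv x)) ∨ ∃ j : H38PH.Ix pg ho, ∀ y : Fin M → ZMod 2, ¬ c.Holds (rho pg hv (tb y)) →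
      y ∈ H96RE.falseSet (H38PH.clS pg ho j) (H38PH.clσ pg ho j) := by
  rcases hc with ⟨i, hi⟩ | ⟨i, i', j, hne, hi⟩
  · right
    refine ⟨Sum.inl i, fun y hy => ?_⟩
    show ∀ t ∈ H38PH.clS pg ho (Sum.inl i), y t = H38PH.clσ pg ho (Sum.inl i) t
    intro e he
    have he' : pg e = i := by
      have h0 : e ∈ Finset.univ.filter (fun e => pg e = i) := he
      exact (Finset.mem_filter.1 h0).2
    show y e = 0
    by_contra h0
    apply hy
    rw [hi]
    refine ⟨(finProdFinEquiv (i, hv e), true), Finset.mem_image.2 ⟨hv e, Finset.mem_univ _, rfl⟩, ?_⟩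
    show rho pg hv (tb y) (finProdFinEquiv (i, hv e)) = true
    rw [← he', rho_edge hinj]
    unfold tb
    have h1 : ∀ z : ZMod 2, z ≠ 0 → z = 1 := by decide
    rw [h1 (y e) h0]
    simp
  · rw [hi]
    by_cases h1 : ∃ e, pg e = i ∧ hv e = j
    · by_cases h2 : ∃ e', pg e' = i' ∧ hv e' = j
      · right
        obtain ⟨e, he1, he2⟩ := h1
        obtain ⟨e', he1', he2'⟩ := h2
        have hee : e ≠ e' := by
          rintro rfl
          exact hne (he1.symm.trans he1')
        refine ⟨Sum.inr ⟨(e, e'), hee, hho e e' (he2.trans he2'.symm)⟩, fun y hy => ?_⟩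
        show ∀ t ∈ ({e, e'} : Finset (Fin M)), y t = 1
        intro t ht
        by_contra h0
        have h3 : ∀ z : ZMod 2, z ≠ 1 → decide (z = 1) = false := by decide
        apply hy
        rw [Finset.mem_insert, Finset.mem_singleton] at ht
        rcases ht with rfl | rfl
        · refine ⟨(finProdFinEquiv (i, j), false), by simp [holeClause], ?_⟩
          show rho pg hv (tb y) (finProdFinEquiv (i, j)) = false
          rw [← he1, ← he2, rho_edge hinj]
          exact h3 _ h0
        · refine ⟨(finProdFinEquiv (i', j), false), by simp [holeClause], ?_⟩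
          show rho pg hv (tb y) (finProdFinEquiv (i', j)) = false
          rw [← he1', ← he2', rho_edge hinj]
          exact h3 _ h0
      · left
        intro x
        refine ⟨(finProdFinEquiv (i', j), false), by simp [holeClause], ?_⟩
        exact rho_not x i' j fun e he hej => h2 ⟨e, he, hej⟩
    · left
      intro x
      refine ⟨(finProdFinEquiv (i, j), false), by simp [holeClause], ?_⟩
      exact rho_not x i j fun e he hej => h1 ⟨e, he, hej⟩

end

/-- **Pigeonhole principle, semantic version.** -/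
theorem php_sem (C f : ℕ) (hC : 1 ≤ C) : ∃ (c : ℝ) (n0 : ℕ), 0 < c ∧ ∀ n m N t M' : ℕ, n0 ≤ n → n < m → m ≤ C * n →
    (t : ℝ) ≤ c * n → ∀ Φ : Fin M' → Clause (m * n),
    (∀ a, (∃ i, Φ a = pigeonClause m n i) ∨ ∃ i i' j, i ≠ i' ∧ Φ a = holeClause m n i i' j) →
    SemRefutes 1 t f Φ N → (2 : ℝ) ^ (c * n) ≤ N := by
  obtain ⟨c, n0, hc, hn0, H⟩ := ph_num C f hC
  refine ⟨c, n0, hc, ?_⟩
  intro n m N t M' hn hnm hmC ht Φ hΦ hR
  obtain ⟨w, t', D, h, R, q, hq0, hq1, hh, hct, h32, hE1, hE2, hfin⟩ := H n m hn hnm hmC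
  have htt : t ≤ t' := by exact_mod_cast ht.trans hct
  have hn1 : 1 ≤ n / 8 := by omega
  have hm1 : m ≤ 16 * C * (n / 8) := by
    have h1 : n ≤ 16 * (n / 8) := by omega
    calc m ≤ C * n := hmC
      _ ≤ C * (16 * (n / 8)) := Nat.mul_le_mul_left _ h1
      _ = _ := by ring
  obtain ⟨pg, ho, hinj, hdeg, hexp, hgood⟩ := ph_graph (16 * C) (by omega) hn1 hm1
  obtain ⟨B, hB⟩ : ∃ B : ℕ, B = n / 8 / (16 * 2187 * (16 * C)) ^ 2 := ⟨_, rfl⟩
  rw [← hB] at hE1 hE2 hexp
  have hgood' := hgood h
  rw [← hB] at hgood'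
  obtain ⟨E, hE⟩ : ∃ E : ℕ, E = B / 16 := ⟨_, rfl⟩
  rw [← hE] at hE1 hE2
  have h16 : 16 * E ≤ B := by rw [hE]; exact Nat.mul_div_le B 16
  -- holes as elements of Fin n
  obtain ⟨hv, hhv⟩ : ∃ hv : Fin (8 * m) → Fin n, ∀ e, (hv e : ℕ) = (ho e : ℕ) :=
    ⟨fun e => ⟨(ho e : ℕ), lt_of_lt_of_le (ho e).2 (Nat.mul_div_le n 8)⟩, fun e => rfl⟩
  have hhh : ∀ e e', hv e = hv e' → ho e = ho e' := by
    intro e e' h1
    apply Fin.ext
    rw [← hhv e, ← hhv e', h1]
  have hinj' : ∀ e e', pg e = pg e' → hv e = hv e' → e = e' := fun e e' h1 h2 => hinj e e' h1 (hhh e e' h2)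
  -- the lines
  obtain ⟨l, hN1, hlast, hinf⟩ := hR
  have hG := H38PH.thmPH (pg := pg) (ho := ho) hexp h16 (by omega) (fun j => by
    have := hdeg j
    have h8 : 8 ≤ E := by omega
    refine le_trans (le_of_eq ?_) h8
    convert this) (by omega)
  have hcardS : ∀ j : H38PH.Ix pg ho, (H38PH.clS pg ho j).card ≤ 8 := by
    rintro (j | p)
    · have := hdeg j
      refine le_of_eq ?_
      show (Finset.univ.filter (fun e => pg e = j)).card = 8
      convert this
    · show ({p.1.1, p.1.2} : Finset (Fin (8 * m))).card ≤ 8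
      exact (Finset.card_le_two).trans (by norm_num)
  have hC' := H96RE.thmC (n := 8 * m) (N := N) (k := 8) (e := 1) (t := t') (f := f) (w := w) (D := D) (E := E)
    (H38PH.clS pg ho) (H38PH.clσ pg ho) hcardS hq0 hq1 (H38PH.GoodP pg ho B) hG hE1 hE2
    (fun i => {y | ¬ (l i).Holds (rho pg hv (tb y))})
    (by
      intro i _
      refine ⟨{g' | ∃ g ∈ (l i).E, g' = fun y => g (rho pg hv (tb y))}, fun y => (l i).h (rho pg hv (tb y)), ?_, ?_, ?_⟩
      · rintro _ ⟨g, hg, rfl⟩
        exact pol_of_deg (degLE_comp (p := 2) (rho pg hv) (rho_or pg hv) ((l i).hE g hg).1)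
      · exact pol_le htt (pol_of_deg (degLE_comp (p := 2) (rho pg hv) (rho_or pg hv) (l i).hh.1))
      · ext y
        show ¬ (l i).Holds (rho pg hv (tb y)) ↔ _
        unfold Line.Holds
        constructor
        · intro hy
          push Not at hy
          refine ⟨?_, ?_⟩
          · rintro _ ⟨g, hg, rfl⟩
            rcases ((l i).hE g hg).2 (rho pg hv (tb y)) with h1 | h1
            · exact h1
            · exact absurd h1 (hy.1 g hg)
          · rcases (l i).hh.2 (rho pg hv (tb y)) with h1 | h1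
            · exact h1
            · exact absurd h1 hy.2
        · rintro ⟨h1, h2⟩ (⟨g, hg, h3⟩ | h3)
          · have h4 : g (rho pg hv (tb y)) = 0 := h1 _ ⟨g, hg, rfl⟩
            rw [h3] at h4
            exact absurd h4 (by decide)
          · have h4 : (l i).h (rho pg hv (tb y)) = 0 := h2
            rw [h3] at h4
            exact absurd h4 (by decide))
    (by
      intro i hi
      rcases hinf i hi with ⟨a, ha⟩ | ⟨J, hJ, hJi, hJs⟩
      · rcases clause_restrict (ho := ho) hinj' hhh (Φ a) (hΦ a) with h1 | ⟨j, h1⟩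
        · right
          refine ⟨∅, by simp, by simp, ?_⟩
          intro y hy
          exact absurd (ha _ (h1 (tb y))) hy
        · left
          exact ⟨j, fun y hy => h1 y (fun h2 => hy (ha _ h2))⟩
      · right
        refine ⟨J, hJ, hJi, ?_⟩
        intro y hy
        by_contra hcon
        push Not at hcon
        apply hy
        apply hJs
        intro j hj
        have := hcon j hj
        by_contra h3
        exact this h3)
    ⟨N - 1, by omega, by
      ext y
      constructor
      · intro _; exact Set.mem_univ _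
      · intro _; exact hlast _⟩
  apply hfin N
  intro D' hD'
  refine le_trans ?_ (hC' D' hD')
  apply mul_le_mul_of_nonneg_right _ (by positivity)
  have h5 := hgood' D' R hh h32
  have h6 : (8 * m - R - D' * (8 * h ^ 2)).choose D' ≤
      (Finset.univ.filter (fun T : Finset (Fin (8 * m)) => T.card = D' ∧ T ∈ H38PH.GoodP pg ho B)).card := h5
  exact_mod_cast h6

end H92PH
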