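import Mathlib

/-!
# Sparse random graphs between pigeons and holes

Function model: the holes are `Fin 8 × Fin n1` (eight classes), `f : Fin 8 → Fin m → Fin n1`, and the pigeon `u` is joined to the
eight holes `(a, f a u)`.  `bdf f J` is the set of holes hit by exactly one pigeon of `J`.  If `m ≤ C n1` then for some `f` (in fact
for at least `7/8` of all `f`) every nonempty set `J` of at most `n1 / (16 * 2187 * C) ^ 2` pigeons has `|J| < |bdf f J|`.
-/

namespace H92PH

open Finset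

/-- Holes `(a, v)` hit by exactly one pigeon of `J`. -/
def bdf {n1 m : ℕ} (f : Fin 8 → Fin m → Fin n1) (J : Finset (Fin m)) : Finset (Fin 8 × Fin n1) :=
  Finset.univ.filter fun v => (J.filter fun u => f v.1 u = v.2).card = 1

/-- one class: the number of maps `g` whose image on `J` has at most `t` elements. -/
theorem gr_small {n1 m : ℕ} (J : Finset (Fin m)) (t : ℕ) (ht : t ≤ n1) :
    (Finset.univ.filter fun g : Fin m → Fin n1 => (J.image g).card ≤ t).card ≤
      n1.choose t * (t ^ J.card * n1 ^ (m - J.card)) := by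
  classical
  have hsub : (Finset.univ.filter fun g : Fin m → Fin n1 => (J.image g).card ≤ t) ⊆
      (Finset.powersetCard t (Finset.univ : Finset (Fin n1))).biUnion
        (fun W => Fintype.piFinset (fun u : Fin m => if u ∈ J then W else Finset.univ)) := by
    intro g hg
    rw [Finset.mem_filter] at hg
    obtain ⟨W, hW1, hW2⟩ := Finset.exists_superset_card_eq hg.2 (by simpa using ht)
    rw [Finset.mem_biUnion]
    refine ⟨W, Finset.mem_powersetCard.2 ⟨Finset.subset_univ _, hW2⟩, ?_⟩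
    rw [Fintype.mem_piFinset]
    intro u
    by_cases hu : u ∈ J
    · simp only [hu, if_true]
      exact hW1 (Finset.mem_image_of_mem g hu)
    · simp [hu]
  refine (Finset.card_le_card hsub).trans (Finset.card_biUnion_le.trans ?_)
  have hcard : ∀ W ∈ Finset.powersetCard t (Finset.univ : Finset (Fin n1)),
      (Fintype.piFinset (fun u : Fin m => if u ∈ J then W else (Finset.univ : Finset (Fin n1)))).card =
        t ^ J.card * n1 ^ (m - J.card) := by
    intro W hW
    rw [Fintype.card_piFinset]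
    have h1 : ∀ u : Fin m, (if u ∈ J then W else (Finset.univ : Finset (Fin n1))).card =
        if u ∈ J then t else n1 := by
      intro u
      split_ifs
      · exact (Finset.mem_powersetCard.1 hW).2
      · simp
    rw [Finset.prod_congr rfl (fun u _ => h1 u), Finset.prod_ite, Finset.prod_const, Finset.prod_const]
    have h2 : (Finset.univ.filter fun u : Fin m => u ∈ J) = J := by ext u; simp
    have h3 : (Finset.univ.filter fun u : Fin m => ¬ u ∈ J) = Jᶜ := by ext u; simp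
    rw [h2, h3, Finset.card_compl, Fintype.card_fin]
  rw [Finset.sum_congr rfl hcard, Finset.sum_const, Finset.card_powersetCard, smul_eq_mul]
  simp

/-- The bad event for `J`: at least six of the eight classes have a small image. -/
theorem gr_six {n1 m : ℕ} (P : (Fin m → Fin n1) → Prop) [DecidablePred P] :
    (Finset.univ.filter fun f : Fin 8 → Fin m → Fin n1 =>
      6 ≤ (Finset.univ.filter fun a => P (f a)).card).card ≤
      28 * ((Finset.univ.filter fun g : Fin m → Fin n1 => P g).card ^ 6 * (n1 ^ m) ^ 2) := by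
  classical
  have hsub : (Finset.univ.filter fun f : Fin 8 → Fin m → Fin n1 =>
      6 ≤ (Finset.univ.filter fun a => P (f a)).card) ⊆
      (Finset.powersetCard 6 (Finset.univ : Finset (Fin 8))).biUnion
        (fun A => Fintype.piFinset (fun a : Fin 8 => if a ∈ A then (Finset.univ.filter fun g => P g) else Finset.univ)) := by
    intro f hf
    rw [Finset.mem_filter] at hf
    obtain ⟨A, hA1, hA2⟩ := Finset.exists_subset_card_eq hf.2
    rw [Finset.mem_biUnion]
    refine ⟨A, Finset.mem_powersetCard.2 ⟨Finset.subset_univ _, hA2⟩, ?_⟩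
    rw [Fintype.mem_piFinset]
    intro a
    by_cases ha : a ∈ A
    · simp only [ha, if_true]
      have := hA1 ha
      rw [Finset.mem_filter] at this ⊢
      exact ⟨Finset.mem_univ _, this.2⟩
    · simp [ha]
  refine (Finset.card_le_card hsub).trans (Finset.card_biUnion_le.trans ?_)
  have hcard : ∀ A ∈ Finset.powersetCard 6 (Finset.univ : Finset (Fin 8)),
      (Fintype.piFinset (fun a : Fin 8 => if a ∈ A then (Finset.univ.filter fun g : Fin m → Fin n1 => P g)
        else Finset.univ)).card = (Finset.univ.filter fun g : Fin m → Fin n1 => P g).card ^ 6 * (n1 ^ m) ^ 2 := by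
    intro A hA
    rw [Fintype.card_piFinset]
    have h1 : ∀ a : Fin 8, (if a ∈ A then (Finset.univ.filter fun g : Fin m → Fin n1 => P g)
        else Finset.univ).card = if a ∈ A then (Finset.univ.filter fun g : Fin m → Fin n1 => P g).card else n1 ^ m := by
      intro a
      split_ifs
      · rfl
      · simp
    rw [Finset.prod_congr rfl (fun a _ => h1 a), Finset.prod_ite, Finset.prod_const, Finset.prod_const]
    have h2 : (Finset.univ.filter fun a : Fin 8 => a ∈ A) = A := by ext u; simp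
    have h3 : (Finset.univ.filter fun a : Fin 8 => ¬ a ∈ A) = Aᶜ := by ext u; simp
    rw [h2, h3, Finset.card_compl, Fintype.card_fin, (Finset.mem_powersetCard.1 hA).2]
  rw [Finset.sum_congr rfl hcard, Finset.sum_const, Finset.card_powersetCard, smul_eq_mul]
  have : (Finset.univ : Finset (Fin 8)).card.choose 6 = 28 := by decide
  rw [this]

/-- one class: `2 |g(J)| ≤ |J| + #(holes hit once)`. -/
theorem gr_once {n1 m : ℕ} (g : Fin m → Fin n1) (J : Finset (Fin m)) :
    2 * (J.image g).card ≤ J.card + (Finset.univ.filter fun v : Fin n1 => (J.filter fun u => g u = v).card = 1).card := by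
  classical
  have h1 : J.card = ∑ v ∈ J.image g, (J.filter fun u => g u = v).card :=
    Finset.card_eq_sum_card_image g J
  have h2 : (Finset.univ.filter fun v : Fin n1 => (J.filter fun u => g u = v).card = 1).card =
      ∑ v ∈ J.image g, if (J.filter fun u => g u = v).card = 1 then 1 else 0 := by
    rw [Finset.card_filter]
    symm
    apply Finset.sum_subset (Finset.subset_univ _)
    intro v _ hv
    have : (J.filter fun u => g u = v) = ∅ := by
      rw [Finset.filter_eq_empty_iff]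
      intro u hu huv
      exact hv (Finset.mem_image.2 ⟨u, hu, huv⟩)
    rw [this]; simp
  rw [h2]
  conv_rhs => rw [h1]
  rw [← Finset.sum_add_distrib]
  have h3 : 2 * (J.image g).card = ∑ v ∈ J.image g, 2 := by rw [Finset.sum_const, smul_eq_mul, mul_comm]
  rw [h3]
  apply Finset.sum_le_sum
  intro v hv
  obtain ⟨u, hu, huv⟩ := Finset.mem_image.1 hv
  have hpos : 0 < (J.filter fun u => g u = v).card :=
    Finset.card_pos.2 ⟨u, Finset.mem_filter.2 ⟨hu, huv⟩⟩
  split_ifs with h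
  · omega
  · omega

/-- If fewer than six classes are bad then `|J| < |bdf f J|`. -/
theorem gr_bd {n1 m : ℕ} (f : Fin 8 → Fin m → Fin n1) (J : Finset (Fin m)) (hJ : J.Nonempty)
    (h : ¬ 6 ≤ (Finset.univ.filter fun a => (J.image (f a)).card ≤ 3 * J.card / 4).card) :
    J.card < (bdf f J).card := by
  classical
  have hcard : (bdf f J).card = ∑ a : Fin 8, (Finset.univ.filter fun v : Fin n1 => (J.filter fun u => f a u = v).card = 1).card := by
    rw [bdf, Finset.card_filter, Fintype.sum_prod_type]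
    apply Finset.sum_congr rfl
    intro a _
    rw [Finset.card_filter]
  have hgood : 3 ≤ (Finset.univ.filter fun a : Fin 8 => ¬ (J.image (f a)).card ≤ 3 * J.card / 4).card := by
    have := Finset.card_filter_add_card_filter_not (s := (Finset.univ : Finset (Fin 8)))
      (fun a => (J.image (f a)).card ≤ 3 * J.card / 4)
    rw [Finset.card_univ, Fintype.card_fin] at this
    omega
  have hJp : 0 < J.card := Finset.card_pos.2 hJ
  have hsum : 3 * J.card ≤ 2 * (bdf f J).card := by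
    rw [hcard, Finset.mul_sum]
    calc 3 * J.card ≤ (Finset.univ.filter fun a : Fin 8 => ¬ (J.image (f a)).card ≤ 3 * J.card / 4).card * J.card :=
          Nat.mul_le_mul_right _ hgood
      _ = ∑ a ∈ (Finset.univ.filter fun a : Fin 8 => ¬ (J.image (f a)).card ≤ 3 * J.card / 4), J.card := by
          rw [Finset.sum_const, smul_eq_mul]
      _ ≤ ∑ a ∈ (Finset.univ.filter fun a : Fin 8 => ¬ (J.image (f a)).card ≤ 3 * J.card / 4),
            2 * (Finset.univ.filter fun v : Fin n1 => (J.filter fun u => f a u = v).card = 1).card := by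
          apply Finset.sum_le_sum
          intro a ha
          rw [Finset.mem_filter] at ha
          have := gr_once (f a) J
          omega
      _ ≤ _ := Finset.sum_le_sum_of_subset (Finset.filter_subset _ _)
  omega

private theorem gr_pow_div_fact (t : ℕ) : (t : ℝ) ^ t ≤ 3 ^ t * (t.factorial : ℝ) := by
  have h1 : (t : ℝ) ^ t / (t.factorial : ℝ) ≤ Real.exp t := Real.pow_div_factorial_le_exp _ (Nat.cast_nonneg t) t
  have h2 : Real.exp t = Real.exp 1 ^ t := by rw [← Real.exp_nat_mul]; simp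
  have h3 : Real.exp 1 ≤ 3 := by have := Real.exp_one_lt_d9; linarith
  have h4 : Real.exp 1 ^ t ≤ 3 ^ t := pow_le_pow_left₀ (Real.exp_pos 1).le h3 t
  have hf : (0 : ℝ) < t.factorial := by exact_mod_cast t.factorial_pos
  rw [div_le_iff₀ hf] at h1
  calc (t : ℝ) ^ t ≤ Real.exp t * t.factorial := h1
    _ ≤ 3 ^ t * t.factorial := by rw [h2]; exact mul_le_mul_of_nonneg_right h4 hf.le

private theorem gr_choose (n t : ℕ) : (n.choose t : ℝ) * (t : ℝ) ^ t ≤ 3 ^ t * (n : ℝ) ^ t := by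
  have h1 : (n.choose t : ℝ) * (t.factorial : ℝ) ≤ (n : ℝ) ^ t := by
    have := Nat.choose_le_pow_div (α := ℝ) t n
    rwa [le_div_iff₀ (by exact_mod_cast t.factorial_pos)] at this
  calc (n.choose t : ℝ) * (t : ℝ) ^ t ≤ (n.choose t : ℝ) * (3 ^ t * (t.factorial : ℝ)) :=
        mul_le_mul_of_nonneg_left (gr_pow_div_fact t) (Nat.cast_nonneg _)
    _ = 3 ^ t * ((n.choose t : ℝ) * (t.factorial : ℝ)) := by ring
    _ ≤ 3 ^ t * (n : ℝ) ^ t := mul_le_mul_of_nonneg_left h1 (by positivity)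

/-- `C(n,t) (t/n)^s ≤ 3^t (s/n)^(s-t)` for `t ≤ s`. -/
private theorem gr_p (n s t : ℕ) (hn : 1 ≤ n) (hts : t ≤ s) :
    (n.choose t : ℝ) * ((t : ℝ) / n) ^ s ≤ 3 ^ t * ((s : ℝ) / n) ^ (s - t) := by
  have hn0 : (0 : ℝ) < n := by exact_mod_cast hn
  have h1 : ((t : ℝ) / n) ^ s = (t : ℝ) ^ t / (n : ℝ) ^ t * ((t : ℝ) / n) ^ (s - t) := by
    rw [← div_pow, ← pow_add]; congr 1; omega
  rw [h1]
  have h2 : (n.choose t : ℝ) * ((t : ℝ) ^ t / (n : ℝ) ^ t) ≤ 3 ^ t := by
    rw [← mul_div_assoc, div_le_iff₀ (pow_pos hn0 t)]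
    exact gr_choose n t
  have h3 : ((t : ℝ) / n) ^ (s - t) ≤ ((s : ℝ) / n) ^ (s - t) := by
    apply pow_le_pow_left₀ (by positivity)
    apply div_le_div_of_nonneg_right _ hn0.le
    exact_mod_cast hts
  calc (n.choose t : ℝ) * ((t : ℝ) ^ t / (n : ℝ) ^ t * ((t : ℝ) / n) ^ (s - t))
      = ((n.choose t : ℝ) * ((t : ℝ) ^ t / (n : ℝ) ^ t)) * ((t : ℝ) / n) ^ (s - t) := by ring
    _ ≤ 3 ^ t * ((s : ℝ) / n) ^ (s - t) := by
        apply mul_le_mul h2 h3 (by positivity) (by positivity)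

/-- the numerical heart. -/
private theorem gr_term {C n1 m s : ℕ} (hC : 1 ≤ C) (hn : 1 ≤ n1) (hm : m ≤ C * n1) (hs : 1 ≤ s)
    (hsn : (16 * 2187 * C) ^ 2 * s ≤ n1) :
    (m.choose s : ℝ) * ((n1.choose (3 * s / 4) : ℝ) * (((3 * s / 4 : ℕ) : ℝ) / n1) ^ s) ^ 6 ≤ (1 / 16) ^ s := by
  have hn0 : (0 : ℝ) < n1 := by exact_mod_cast hn
  have hs0 : (0 : ℝ) < s := by exact_mod_cast hs
  have hC0 : (0 : ℝ) < C := by exact_mod_cast hC
  set t : ℕ := 3 * s / 4 with ht
  have hts : t ≤ s := by omega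
  set y : ℝ := Real.sqrt ((s : ℝ) / n1) with hy
  have hy0 : 0 < y := Real.sqrt_pos.2 (div_pos hs0 hn0)
  have hy2 : y ^ 2 = (s : ℝ) / n1 := Real.sq_sqrt (div_nonneg hs0.le hn0.le)
  have hyle : 16 * (2187 * C * y) ≤ 1 := by
    have h1 : (16 * (2187 * C * y)) ^ 2 ≤ 1 := by
      have h2 : (16 * (2187 * C * y)) ^ 2 = (16 * 2187 * (C : ℝ)) ^ 2 * s / n1 := by
        have : (16 * (2187 * C * y)) ^ 2 = (16 * 2187 * (C : ℝ)) ^ 2 * y ^ 2 := by ring
        rw [this, hy2]; ring
      rw [h2, div_le_one hn0]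
      exact_mod_cast hsn
    have h3 : 0 ≤ 16 * (2187 * C * y) := by positivity
    nlinarith
  have hy1 : y ≤ 1 := by
    have hC1 : (1 : ℝ) ≤ C := by exact_mod_cast hC
    nlinarith
  have hp := gr_p n1 s t hn hts
  have hp0 : 0 ≤ (n1.choose t : ℝ) * ((t : ℝ) / n1) ^ s := by positivity
  have hp6 : ((n1.choose t : ℝ) * ((t : ℝ) / n1) ^ s) ^ 6 ≤ 729 ^ s * y ^ (3 * s) := by
    calc ((n1.choose t : ℝ) * ((t : ℝ) / n1) ^ s) ^ 6 ≤ (3 ^ t * ((s : ℝ) / n1) ^ (s - t)) ^ 6 :=
          pow_le_pow_left₀ hp0 hp 6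
      _ = (3 ^ t) ^ 6 * y ^ (12 * (s - t)) := by
          rw [← hy2, mul_pow, ← pow_mul, ← pow_mul, ← pow_mul]
          congr 2
          ring
      _ ≤ (3 ^ s) ^ 6 * y ^ (3 * s) := by
          apply mul_le_mul
          · apply pow_le_pow_left₀ (by positivity)
            exact pow_le_pow_right₀ (by norm_num) hts
          · exact pow_le_pow_of_le_one hy0.le hy1 (by omega)
          · positivity
          · positivity
      _ = 729 ^ s * y ^ (3 * s) := by
          rw [← pow_mul, mul_comm s 6, pow_mul]; norm_num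
  have hcm : (m.choose s : ℝ) ≤ (3 * C / y ^ 2) ^ s := by
    have h1 := gr_choose m s
    have h2 : (m : ℝ) ^ s ≤ (C * n1 : ℝ) ^ s := by
      apply pow_le_pow_left₀ (Nat.cast_nonneg _)
      exact_mod_cast hm
    have h3 : (3 * C / y ^ 2 : ℝ) ^ s = 3 ^ s * (C * n1 : ℝ) ^ s / (s : ℝ) ^ s := by
      rw [hy2, ← mul_pow, ← div_pow]
      congr 1
      field_simp
    rw [h3, le_div_iff₀ (pow_pos hs0 s)]
    exact h1.trans (mul_le_mul_of_nonneg_left h2 (by positivity))
  calc (m.choose s : ℝ) * ((n1.choose t : ℝ) * ((t : ℝ) / n1) ^ s) ^ 6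
      ≤ (3 * C / y ^ 2) ^ s * (729 ^ s * y ^ (3 * s)) :=
        mul_le_mul hcm hp6 (by positivity) (by positivity)
    _ = (2187 * C * y) ^ s := by
        rw [pow_mul, ← mul_pow, ← mul_pow]
        congr 1
        field_simp
        ring
    _ ≤ (1 / 16) ^ s := by
        apply pow_le_pow_left₀ (by positivity)
        linarith

/-- For `s = 1` the term vanishes. -/
private theorem gr_term_one {n1 m : ℕ} :
    (m.choose 1 : ℝ) * ((n1.choose (3 * 1 / 4) : ℝ) * (((3 * 1 / 4 : ℕ) : ℝ) / n1) ^ 1) ^ 6 = 0 := by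
  norm_num

open Classical in
/-- The number of `f` that fail. -/
theorem gr_bad (C : ℕ) (hC : 1 ≤ C) {n1 m : ℕ} (hn : 1 ≤ n1) (hm : m ≤ C * n1) :
    8 * ((Finset.univ.filter fun f : Fin 8 → Fin m → Fin n1 =>
      ∃ J : Finset (Fin m), J.Nonempty ∧ (16 * 2187 * C) ^ 2 * J.card ≤ n1 ∧
        6 ≤ (Finset.univ.filter fun a => (J.image (f a)).card ≤ 3 * J.card / 4).card).card : ℝ) ≤
      ((n1 : ℝ) ^ m) ^ 8 := by
  have hn0 : (0 : ℝ) < n1 := by exact_mod_cast hn
  set S : ℕ := n1 / (16 * 2187 * C) ^ 2 with hS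
  have hpos : 0 < (16 * 2187 * C) ^ 2 := by positivity
  set bad : Finset (Fin m) → Finset (Fin 8 → Fin m → Fin n1) := fun J =>
    Finset.univ.filter fun f => 6 ≤ (Finset.univ.filter fun a => (J.image (f a)).card ≤ 3 * J.card / 4).card with hbad
  have hsub : (Finset.univ.filter fun f : Fin 8 → Fin m → Fin n1 =>
      ∃ J : Finset (Fin m), J.Nonempty ∧ (16 * 2187 * C) ^ 2 * J.card ≤ n1 ∧
        6 ≤ (Finset.univ.filter fun a => (J.image (f a)).card ≤ 3 * J.card / 4).card) ⊆
      (Finset.Icc 1 S).biUnion fun s => (Finset.powersetCard s (Finset.univ : Finset (Fin m))).biUnion bad := by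
    intro f hf
    rw [Finset.mem_filter] at hf
    obtain ⟨J, hJ, hJn, hJb⟩ := hf.2
    rw [Finset.mem_biUnion]
    refine ⟨J.card, ?_, ?_⟩
    · rw [Finset.mem_Icc]
      refine ⟨Finset.card_pos.2 hJ, ?_⟩
      rw [hS, Nat.le_div_iff_mul_le hpos, mul_comm]
      exact hJn
    · rw [Finset.mem_biUnion]
      refine ⟨J, Finset.mem_powersetCard.2 ⟨Finset.subset_univ _, rfl⟩, ?_⟩
      rw [hbad]
      exact Finset.mem_filter.2 ⟨Finset.mem_univ _, hJb⟩
  have hone : ∀ s ∈ Finset.Icc 1 S, ∀ J ∈ Finset.powersetCard s (Finset.univ : Finset (Fin m)),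
      ((bad J).card : ℝ) ≤ 28 * ((n1.choose (3 * s / 4) : ℝ) * (((3 * s / 4 : ℕ) : ℝ) / n1) ^ s) ^ 6 * ((n1 : ℝ) ^ m) ^ 8 := by
    intro s hs J hJ
    have hJs := (Finset.mem_powersetCard.1 hJ).2
    rw [Finset.mem_Icc] at hs
    have hsm : s ≤ m := by
      rw [← hJs]
      calc J.card ≤ (Finset.univ : Finset (Fin m)).card := Finset.card_le_card (Finset.subset_univ _)
        _ = m := by simp
    have hsn : s ≤ n1 := hs.2.trans (Nat.div_le_self _ _)
    have h6 := gr_six (fun g : Fin m → Fin n1 => (J.image g).card ≤ 3 * J.card / 4)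
    have h1 := gr_small J (3 * J.card / 4) (by rw [hJs]; omega) (n1 := n1)
    have h1' : ((Finset.univ.filter fun g : Fin m → Fin n1 => (J.image g).card ≤ 3 * J.card / 4).card : ℝ) ≤
        ((n1.choose (3 * s / 4) : ℝ) * (((3 * s / 4 : ℕ) : ℝ) / n1) ^ s) * (n1 : ℝ) ^ m := by
      have h2 : (((n1.choose (3 * J.card / 4)) * ((3 * J.card / 4) ^ J.card * n1 ^ (m - J.card)) : ℕ) : ℝ) =
          ((n1.choose (3 * s / 4) : ℝ) * (((3 * s / 4 : ℕ) : ℝ) / n1) ^ s) * (n1 : ℝ) ^ m := by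
        rw [hJs, Nat.cast_mul, Nat.cast_mul, Nat.cast_pow, Nat.cast_pow, div_pow]
        have h3 : (n1 : ℝ) ^ m = (n1 : ℝ) ^ s * (n1 : ℝ) ^ (m - s) := by rw [← pow_add]; congr 1; omega
        rw [h3]
        have h4 : (n1 : ℝ) ^ s ≠ 0 := (pow_pos hn0 s).ne'
        field_simp
      rw [← h2]
      exact_mod_cast h1
    have h6' : ((bad J).card : ℝ) ≤ 28 * (((Finset.univ.filter fun g : Fin m → Fin n1 =>
        (J.image g).card ≤ 3 * J.card / 4).card : ℝ) ^ 6 * ((n1 : ℝ) ^ m) ^ 2) := by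
      exact_mod_cast h6
    refine h6'.trans ?_
    calc 28 * (((Finset.univ.filter fun g : Fin m → Fin n1 =>
        (J.image g).card ≤ 3 * J.card / 4).card : ℝ) ^ 6 * ((n1 : ℝ) ^ m) ^ 2)
        ≤ 28 * ((((n1.choose (3 * s / 4) : ℝ) * (((3 * s / 4 : ℕ) : ℝ) / n1) ^ s) * (n1 : ℝ) ^ m) ^ 6 * ((n1 : ℝ) ^ m) ^ 2) := by
          apply mul_le_mul_of_nonneg_left _ (by norm_num)
          apply mul_le_mul_of_nonneg_right _ (by positivity)
          exact pow_le_pow_left₀ (Nat.cast_nonneg _) h1' 6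
      _ = _ := by ring
  have hsum : ((Finset.univ.filter fun f : Fin 8 → Fin m → Fin n1 =>
      ∃ J : Finset (Fin m), J.Nonempty ∧ (16 * 2187 * C) ^ 2 * J.card ≤ n1 ∧
        6 ≤ (Finset.univ.filter fun a => (J.image (f a)).card ≤ 3 * J.card / 4).card).card : ℝ) ≤
      ∑ s ∈ Finset.Icc 1 S, (m.choose s : ℝ) *
        (28 * ((n1.choose (3 * s / 4) : ℝ) * (((3 * s / 4 : ℕ) : ℝ) / n1) ^ s) ^ 6 * ((n1 : ℝ) ^ m) ^ 8) := by
    have h1 : (Finset.univ.filter fun f : Fin 8 → Fin m → Fin n1 =>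
      ∃ J : Finset (Fin m), J.Nonempty ∧ (16 * 2187 * C) ^ 2 * J.card ≤ n1 ∧
        6 ≤ (Finset.univ.filter fun a => (J.image (f a)).card ≤ 3 * J.card / 4).card).card ≤
        ∑ s ∈ Finset.Icc 1 S, ∑ J ∈ Finset.powersetCard s (Finset.univ : Finset (Fin m)), (bad J).card :=
      (Finset.card_le_card hsub).trans (Finset.card_biUnion_le.trans
        (Finset.sum_le_sum fun s _ => Finset.card_biUnion_le))
    have h2 : ((∑ s ∈ Finset.Icc 1 S, ∑ J ∈ Finset.powersetCard s (Finset.univ : Finset (Fin m)), (bad J).card : ℕ) : ℝ) ≤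
        ∑ s ∈ Finset.Icc 1 S, (m.choose s : ℝ) *
        (28 * ((n1.choose (3 * s / 4) : ℝ) * (((3 * s / 4 : ℕ) : ℝ) / n1) ^ s) ^ 6 * ((n1 : ℝ) ^ m) ^ 8) := by
      rw [Nat.cast_sum]
      apply Finset.sum_le_sum
      intro s hs
      rw [Nat.cast_sum]
      refine (Finset.sum_le_sum (hone s hs)).trans ?_
      rw [Finset.sum_const, Finset.card_powersetCard, nsmul_eq_mul, Finset.card_univ, Fintype.card_fin]
    exact le_trans (by exact_mod_cast h1) h2
  have hterm : ∀ s ∈ Finset.Icc 1 S, (m.choose s : ℝ) *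
        (28 * ((n1.choose (3 * s / 4) : ℝ) * (((3 * s / 4 : ℕ) : ℝ) / n1) ^ s) ^ 6 * ((n1 : ℝ) ^ m) ^ 8) ≤
        (28 * ((n1 : ℝ) ^ m) ^ 8) * (if s = 1 then 0 else (1 / 16 : ℝ) ^ s) := by
    intro s hs
    rw [Finset.mem_Icc] at hs
    have hN : 0 ≤ 28 * ((n1 : ℝ) ^ m) ^ 8 := by positivity
    have h1 : (m.choose s : ℝ) *
        (28 * ((n1.choose (3 * s / 4) : ℝ) * (((3 * s / 4 : ℕ) : ℝ) / n1) ^ s) ^ 6 * ((n1 : ℝ) ^ m) ^ 8) =
        (28 * ((n1 : ℝ) ^ m) ^ 8) * ((m.choose s : ℝ) * ((n1.choose (3 * s / 4) : ℝ) * (((3 * s / 4 : ℕ) : ℝ) / n1) ^ s) ^ 6) := by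
      ring
    rw [h1]
    apply mul_le_mul_of_nonneg_left _ hN
    by_cases hs1 : s = 1
    · subst hs1
      rw [if_pos rfl]
      exact le_of_eq gr_term_one
    · rw [if_neg hs1]
      apply gr_term hC hn hm hs.1
      have := hs.2
      rw [hS, Nat.le_div_iff_mul_le hpos, mul_comm] at this
      exact this
  have hgeo : ∀ T : ℕ, ∑ s ∈ Finset.Icc 1 T, (if s = 1 then (0 : ℝ) else (1 / 16 : ℝ) ^ s) ≤ 1 / 240 - (1 / 240) * (1 / 16) ^ (T - 1) := by
    intro T
    induction T with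
    | zero => simp
    | succ T ih =>
      rw [Finset.sum_Icc_succ_top (by omega)]
      rcases Nat.eq_zero_or_pos T with rfl | hT
      · simp
      · rw [if_neg (by omega)]
        have h1 : T + 1 - 1 = (T - 1) + 1 := by omega
        have h2 : T + 1 = (T - 1) + 2 := by omega
        rw [h1]
        conv_lhs => rw [h2]
        have h3 : (0 : ℝ) ≤ (1 / 16) ^ (T - 1) := by positivity
        rw [pow_add, pow_succ (1 / 16 : ℝ) (T - 1)]
        nlinarith [ih]
  have hN : 0 ≤ ((n1 : ℝ) ^ m) ^ 8 := by positivity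
  calc 8 * ((Finset.univ.filter fun f : Fin 8 → Fin m → Fin n1 =>
      ∃ J : Finset (Fin m), J.Nonempty ∧ (16 * 2187 * C) ^ 2 * J.card ≤ n1 ∧
        6 ≤ (Finset.univ.filter fun a => (J.image (f a)).card ≤ 3 * J.card / 4).card).card : ℝ)
      ≤ 8 * ∑ s ∈ Finset.Icc 1 S, (28 * ((n1 : ℝ) ^ m) ^ 8) * (if s = 1 then 0 else (1 / 16 : ℝ) ^ s) := by
        apply mul_le_mul_of_nonneg_left _ (by norm_num)
        exact hsum.trans (Finset.sum_le_sum hterm)
    _ = 8 * (28 * ((n1 : ℝ) ^ m) ^ 8) * ∑ s ∈ Finset.Icc 1 S, (if s = 1 then 0 else (1 / 16 : ℝ) ^ s) := by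
        rw [← Finset.mul_sum]; ring
    _ ≤ 8 * (28 * ((n1 : ℝ) ^ m) ^ 8) * (1 / 240) := by
        apply mul_le_mul_of_nonneg_left _ (by positivity)
        have := hgeo S
        have h3 : (0 : ℝ) ≤ (1 / 240) * (1 / 16) ^ (S - 1) := by positivity
        linarith
    _ ≤ ((n1 : ℝ) ^ m) ^ 8 := by nlinarith

/-- Existence of the graph. -/
theorem graph_exists (C : ℕ) (hC : 1 ≤ C) {n1 m : ℕ} (hn : 1 ≤ n1) (hm : m ≤ C * n1) :
    ∃ f : Fin 8 → Fin m → Fin n1, ∀ J : Finset (Fin m), J.Nonempty → (16 * 2187 * C) ^ 2 * J.card ≤ n1 →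
      J.card < (bdf f J).card := by
  classical
  by_contra hcon
  push Not at hcon
  have hall : (Finset.univ.filter fun f : Fin 8 → Fin m → Fin n1 =>
      ∃ J : Finset (Fin m), J.Nonempty ∧ (16 * 2187 * C) ^ 2 * J.card ≤ n1 ∧
        6 ≤ (Finset.univ.filter fun a => (J.image (f a)).card ≤ 3 * J.card / 4).card) = Finset.univ := by
    rw [Finset.filter_eq_self]
    intro f _
    obtain ⟨J, hJ, hJn, hJb⟩ := hcon f
    refine ⟨J, hJ, hJn, ?_⟩
    by_contra h
    exact absurd (gr_bd f J hJ h) (by omega)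
  have h := gr_bad C hC hn hm
  have hcast : ((Finset.univ.filter fun f : Fin 8 → Fin m → Fin n1 =>
      ∃ J : Finset (Fin m), J.Nonempty ∧ (16 * 2187 * C) ^ 2 * J.card ≤ n1 ∧
        6 ≤ (Finset.univ.filter fun a => (J.image (f a)).card ≤ 3 * J.card / 4).card).card : ℝ) = ((n1 : ℝ) ^ m) ^ 8 := by
    have : (Finset.univ : Finset (Fin 8 → Fin m → Fin n1)).card = (n1 ^ m) ^ 8 := by simp
    rw [← Nat.cast_pow, ← Nat.cast_pow, ← this, ← hall]
    congr!
  rw [hcast] at h
  have hN : 0 < ((n1 : ℝ) ^ m) ^ 8 := by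
    have : (0 : ℝ) < n1 := by exact_mod_cast hn
    positivity
  linarith

end H92PH
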