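import Mathlib
import Pool.Agent.H92.PH.Gr
import Pool.Agent.H38.PH.Defs

/-!
# Sparse random graphs between pigeons and holes, any number of pigeons

`k = 4 (K + 1)` classes of `n1` holes.  If `1296 m (27 S)^K ≤ n1^(K+1)` then for some `f : Fin k → Fin m → Fin n1` every set `J`
of at most `S` pigeons satisfies `|J| ≤ 2 |∂J|`.
-/

set_option autoImplicit false
open scoped Classical

namespace H92PH

open Finset

/-- Holes `(a, v)` hit by exactly one pigeon of `J`. -/
noncomputable def bdk {k n1 m : ℕ} (f : Fin k → Fin m → Fin n1) (J : Finset (Fin m)) : Finset (Fin k × Fin n1) :=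
  Finset.univ.filter fun v => (J.filter fun u => f v.1 u = v.2).card = 1

/-- One class with a large image is enough. -/
theorem grk_bd {k n1 m : ℕ} (f : Fin k → Fin m → Fin n1) (J : Finset (Fin m))
    (h : ¬ ∀ a, (J.image (f a)).card ≤ 3 * J.card / 4) : J.card ≤ 2 * (bdk f J).card := by
  push Not at h
  obtain ⟨a, ha⟩ := h
  have h1 := gr_once (f a) J
  have h2 : (Finset.univ.filter fun v : Fin n1 => (J.filter fun u => f a u = v).card = 1).card ≤ (bdk f J).card := by
    apply Finset.card_le_card_of_injOn (fun v => (a, v))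
    · intro v hv
      rw [Finset.mem_coe, Finset.mem_filter] at hv
      rw [Finset.mem_coe, bdk, Finset.mem_filter]
      refine ⟨Finset.mem_univ _, ?_⟩
      convert hv.2
    · intro v _ v' _ hvv
      exact (Prod.mk.inj hvv).2
  have h3 : (Finset.univ.filter fun v : Fin n1 => (J.filter fun u => f a u = v).card = 1).card =
      (Finset.univ.filter fun v : Fin n1 => (J.filter fun u => f a u = v).card = 1).card := rfl
  have h4 : 2 * (J.image (f a)).card ≤ J.card + (bdk f J).card := by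
    refine le_trans ?_ (Nat.add_le_add_left h2 _)
    convert h1
  omega

private theorem grk_pow_div_fact (t : ℕ) : (t : ℝ) ^ t ≤ 3 ^ t * (t.factorial : ℝ) := by
  have h1 : (t : ℝ) ^ t / (t.factorial : ℝ) ≤ Real.exp t := Real.pow_div_factorial_le_exp _ (Nat.cast_nonneg t) t
  have h2 : Real.exp t = Real.exp 1 ^ t := by rw [← Real.exp_nat_mul]; simp
  have h3 : Real.exp 1 ≤ 3 := by have := Real.exp_one_lt_d9; linarith
  have h4 : Real.exp 1 ^ t ≤ 3 ^ t := pow_le_pow_left₀ (Real.exp_pos 1).le h3 t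
  have hf : (0 : ℝ) < t.factorial := by exact_mod_cast t.factorial_pos
  rw [div_le_iff₀ hf] at h1
  calc (t : ℝ) ^ t ≤ Real.exp t * t.factorial := h1
    _ ≤ 3 ^ t * t.factorial := by rw [h2]; exact mul_le_mul_of_nonneg_right h4 hf.le

private theorem grk_choose (n t : ℕ) : (n.choose t : ℝ) * (t : ℝ) ^ t ≤ 3 ^ t * (n : ℝ) ^ t := by
  have h1 : (n.choose t : ℝ) * (t.factorial : ℝ) ≤ (n : ℝ) ^ t := by
    have := Nat.choose_le_pow_div (α := ℝ) t n
    rwa [le_div_iff₀ (by exact_mod_cast t.factorial_pos)] at this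
  calc (n.choose t : ℝ) * (t : ℝ) ^ t ≤ (n.choose t : ℝ) * (3 ^ t * (t.factorial : ℝ)) :=
        mul_le_mul_of_nonneg_left (grk_pow_div_fact t) (Nat.cast_nonneg _)
    _ = 3 ^ t * ((n.choose t : ℝ) * (t.factorial : ℝ)) := by ring
    _ ≤ 3 ^ t * (n : ℝ) ^ t := mul_le_mul_of_nonneg_left h1 (by positivity)

/-- `C(n,t) (t/n)^s ≤ 3^t (s/n)^(s-t)` for `t ≤ s`. -/
private theorem grk_p (n s t : ℕ) (hn : 1 ≤ n) (hts : t ≤ s) :
    (n.choose t : ℝ) * ((t : ℝ) / n) ^ s ≤ 3 ^ t * ((s : ℝ) / n) ^ (s - t) := by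
  have hn0 : (0 : ℝ) < n := by exact_mod_cast hn
  have h1 : ((t : ℝ) / n) ^ s = (t : ℝ) ^ t / (n : ℝ) ^ t * ((t : ℝ) / n) ^ (s - t) := by
    rw [← div_pow, ← pow_add]; congr 1; omega
  rw [h1]
  have h2 : (n.choose t : ℝ) * ((t : ℝ) ^ t / (n : ℝ) ^ t) ≤ 3 ^ t := by
    rw [← mul_div_assoc, div_le_iff₀ (pow_pos hn0 t)]
    exact grk_choose n t
  have h3 : ((t : ℝ) / n) ^ (s - t) ≤ ((s : ℝ) / n) ^ (s - t) := by
    apply pow_le_pow_left₀ (by positivity)
    apply div_le_div_of_nonneg_right _ hn0.le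
    exact_mod_cast hts
  calc (n.choose t : ℝ) * ((t : ℝ) ^ t / (n : ℝ) ^ t * ((t : ℝ) / n) ^ (s - t))
      = ((n.choose t : ℝ) * ((t : ℝ) ^ t / (n : ℝ) ^ t)) * ((t : ℝ) / n) ^ (s - t) := by ring
    _ ≤ 3 ^ t * ((s : ℝ) / n) ^ (s - t) := by
        apply mul_le_mul h2 h3 (by positivity) (by positivity)

/-- the numerical heart. -/
private theorem grk_term {K n1 m S s : ℕ} (hn : 1 ≤ n1) (hs : 1 ≤ s) (hsS : s ≤ S) (hsm : s ≤ m)
    (h : 1296 * m * (27 * S) ^ K ≤ n1 ^ (K + 1)) :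
    (m.choose s : ℝ) * ((n1.choose (3 * s / 4) : ℝ) * (((3 * s / 4 : ℕ) : ℝ) / n1) ^ s) ^ (4 * (K + 1)) ≤ (1 / 16) ^ s := by
  have hn0 : (0 : ℝ) < n1 := by exact_mod_cast hn
  have hs0 : (0 : ℝ) < s := by exact_mod_cast hs
  set t : ℕ := 3 * s / 4 with ht
  have hts : t ≤ s := by omega
  have hsn : s ≤ n1 := by
    by_contra hcon
    push Not at hcon
    have h1 : n1 ^ (K + 1) < s ^ (K + 1) := Nat.pow_lt_pow_left hcon (by omega)
    have h2 : s ^ (K + 1) ≤ 1296 * m * (27 * S) ^ K := by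
      rw [pow_succ, mul_comm]
      apply Nat.mul_le_mul
      · omega
      · exact Nat.pow_le_pow_left (by omega) K
    omega
  have hsn1 : (s : ℝ) / n1 ≤ 1 := by
    rw [div_le_one hn0]; exact_mod_cast hsn
  have hp := grk_p n1 s t hn hts
  have hp0 : 0 ≤ (n1.choose t : ℝ) * ((t : ℝ) / n1) ^ s := by positivity
  have hp4 : ((n1.choose t : ℝ) * ((t : ℝ) / n1) ^ s) ^ 4 ≤ (27 * s / n1) ^ s := by
    calc ((n1.choose t : ℝ) * ((t : ℝ) / n1) ^ s) ^ 4 ≤ (3 ^ t * ((s : ℝ) / n1) ^ (s - t)) ^ 4 :=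
          pow_le_pow_left₀ hp0 hp 4
      _ = 3 ^ (t * 4) * ((s : ℝ) / n1) ^ ((s - t) * 4) := by rw [mul_pow, ← pow_mul, ← pow_mul]
      _ ≤ 3 ^ (3 * s) * ((s : ℝ) / n1) ^ s := by
          apply mul_le_mul
          · exact pow_le_pow_right₀ (by norm_num) (by omega)
          · exact pow_le_pow_of_le_one (by positivity) hsn1 (by omega)
          · positivity
          · positivity
      _ = (27 * s / n1) ^ s := by
          rw [pow_mul, ← mul_pow]
          congr 1
          norm_num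
          ring
  have hcm : (m.choose s : ℝ) ≤ (3 * m / s) ^ s := by
    have h1 := grk_choose m s
    rw [div_pow, mul_pow, le_div_iff₀ (pow_pos hs0 s)]
    exact h1
  calc (m.choose s : ℝ) * ((n1.choose t : ℝ) * ((t : ℝ) / n1) ^ s) ^ (4 * (K + 1))
      ≤ (3 * m / s) ^ s * ((27 * s / n1) ^ s) ^ (K + 1) := by
        rw [pow_mul]
        apply mul_le_mul hcm (pow_le_pow_left₀ (by positivity) hp4 _) (by positivity) (by positivity)
    _ = (3 * m / s * (27 * s / n1) ^ (K + 1)) ^ s := by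
        rw [← pow_mul, mul_comm s (K + 1), pow_mul, ← mul_pow]
    _ ≤ (1 / 16) ^ s := by
        apply pow_le_pow_left₀ (by positivity)
        have h1 : (3 * m / s * (27 * s / n1) ^ (K + 1) : ℝ) = 81 * m * (27 * s) ^ K / n1 ^ (K + 1) := by
          rw [div_pow, pow_succ (27 * (s : ℝ)) K]
          field_simp
          ring
        rw [h1, div_le_iff₀ (by positivity)]
        have h2 : (1296 * m * (27 * S) ^ K : ℝ) ≤ (n1 : ℝ) ^ (K + 1) := by exact_mod_cast h
        have h3 : ((27 * s : ℝ)) ^ K ≤ (27 * S) ^ K := by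
          apply pow_le_pow_left₀ (by positivity)
          have : (s : ℝ) ≤ S := by exact_mod_cast hsS
          linarith
        have h4 : (0 : ℝ) ≤ m := Nat.cast_nonneg _
        have h5 : (m : ℝ) * (27 * s) ^ K ≤ m * (27 * S) ^ K := mul_le_mul_of_nonneg_left h3 h4
        nlinarith

/-- Existence of the graph. -/
theorem graph_existsK (K : ℕ) {n1 m S : ℕ} (hn : 1 ≤ n1) (h : 1296 * m * (27 * S) ^ K ≤ n1 ^ (K + 1)) :
    ∃ f : Fin (4 * (K + 1)) → Fin m → Fin n1, ∀ J : Finset (Fin m), J.card ≤ S → J.card ≤ 2 * (bdk f J).card := by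
  by_contra hcon
  push Not at hcon
  have hn0 : (0 : ℝ) < n1 := by exact_mod_cast hn
  set X : Finset (Fin m) → Finset (Fin m → Fin n1) := fun J =>
    Finset.univ.filter fun g => (J.image g).card ≤ 3 * J.card / 4 with hX
  set bad : Finset (Fin m) → Finset (Fin (4 * (K + 1)) → Fin m → Fin n1) := fun J => Fintype.piFinset (fun _ => X J) with hbad
  have hall : (Finset.univ : Finset (Fin (4 * (K + 1)) → Fin m → Fin n1)) ⊆
      (Finset.Icc 1 (min S m)).biUnion fun s => (Finset.powersetCard s (Finset.univ : Finset (Fin m))).biUnion bad := by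
    intro f _
    obtain ⟨J, hJ, hJb⟩ := hcon f
    have hne : 1 ≤ J.card := by
      by_contra h0
      have : J.card = 0 := by omega
      omega
    have hJm : J.card ≤ m := by
      calc J.card ≤ (Finset.univ : Finset (Fin m)).card := Finset.card_le_card (Finset.subset_univ _)
        _ = m := by simp
    rw [Finset.mem_biUnion]
    refine ⟨J.card, Finset.mem_Icc.2 ⟨hne, le_min hJ hJm⟩, ?_⟩
    rw [Finset.mem_biUnion]
    refine ⟨J, Finset.mem_powersetCard.2 ⟨Finset.subset_univ _, rfl⟩, ?_⟩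
    rw [hbad]
    simp only [Fintype.mem_piFinset, hX, Finset.mem_filter, Finset.mem_univ, true_and]
    by_contra hc
    exact absurd (grk_bd f J hc) (by omega)
  have hone : ∀ s ∈ Finset.Icc 1 (min S m), ∀ J ∈ Finset.powersetCard s (Finset.univ : Finset (Fin m)),
      ((bad J).card : ℝ) ≤ ((n1.choose (3 * s / 4) : ℝ) * (((3 * s / 4 : ℕ) : ℝ) / n1) ^ s) ^ (4 * (K + 1)) *
        ((n1 : ℝ) ^ m) ^ (4 * (K + 1)) := by
    intro s hs J hJ
    have hJs := (Finset.mem_powersetCard.1 hJ).2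
    rw [Finset.mem_Icc, le_min_iff] at hs
    have hsm : s ≤ m := hs.2.2
    have hsn : s ≤ n1 := by
      by_contra hcon2
      push Not at hcon2
      have h1 : n1 ^ (K + 1) < s ^ (K + 1) := Nat.pow_lt_pow_left hcon2 (by omega)
      have h2 : s ^ (K + 1) ≤ 1296 * m * (27 * S) ^ K := by
        rw [pow_succ, mul_comm]
        apply Nat.mul_le_mul
        · omega
        · exact Nat.pow_le_pow_left (by omega) K
      omega
    have h1 := gr_small J (3 * J.card / 4) (by rw [hJs]; omega) (n1 := n1)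
    have h1' : ((X J).card : ℝ) ≤
        ((n1.choose (3 * s / 4) : ℝ) * (((3 * s / 4 : ℕ) : ℝ) / n1) ^ s) * (n1 : ℝ) ^ m := by
      have h2 : (((n1.choose (3 * J.card / 4)) * ((3 * J.card / 4) ^ J.card * n1 ^ (m - J.card)) : ℕ) : ℝ) =
          ((n1.choose (3 * s / 4) : ℝ) * (((3 * s / 4 : ℕ) : ℝ) / n1) ^ s) * (n1 : ℝ) ^ m := by
        rw [hJs, Nat.cast_mul, Nat.cast_mul, Nat.cast_pow, Nat.cast_pow, div_pow]
        have h3 : (n1 : ℝ) ^ m = (n1 : ℝ) ^ s * (n1 : ℝ) ^ (m - s) := by rw [← pow_add]; congr 1; omega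
        rw [h3]
        have h4 : (n1 : ℝ) ^ s ≠ 0 := (pow_pos hn0 s).ne'
        field_simp
      rw [← h2]
      have h5 : (X J).card ≤ (n1.choose (3 * J.card / 4)) * ((3 * J.card / 4) ^ J.card * n1 ^ (m - J.card)) := by
        refine le_trans (le_of_eq ?_) h1
        rw [hX]
      exact_mod_cast h5
    have hbc : (bad J).card = (X J).card ^ (4 * (K + 1)) := by
      rw [hbad]
      simp [Fintype.card_piFinset]
    rw [hbc, Nat.cast_pow, ← mul_pow]
    exact pow_le_pow_left₀ (Nat.cast_nonneg _) h1' _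
  have hsum : (((Finset.univ : Finset (Fin (4 * (K + 1)) → Fin m → Fin n1)).card : ℕ) : ℝ) ≤
      ∑ s ∈ Finset.Icc 1 (min S m), (m.choose s : ℝ) *
        (((n1.choose (3 * s / 4) : ℝ) * (((3 * s / 4 : ℕ) : ℝ) / n1) ^ s) ^ (4 * (K + 1)) * ((n1 : ℝ) ^ m) ^ (4 * (K + 1))) := by
    have h1 : (Finset.univ : Finset (Fin (4 * (K + 1)) → Fin m → Fin n1)).card ≤
        ∑ s ∈ Finset.Icc 1 (min S m), ∑ J ∈ Finset.powersetCard s (Finset.univ : Finset (Fin m)), (bad J).card :=
      (Finset.card_le_card hall).trans (Finset.card_biUnion_le.trans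
        (Finset.sum_le_sum fun s _ => Finset.card_biUnion_le))
    have h2 : ((∑ s ∈ Finset.Icc 1 (min S m), ∑ J ∈ Finset.powersetCard s (Finset.univ : Finset (Fin m)), (bad J).card : ℕ) : ℝ) ≤
        ∑ s ∈ Finset.Icc 1 (min S m), (m.choose s : ℝ) *
        (((n1.choose (3 * s / 4) : ℝ) * (((3 * s / 4 : ℕ) : ℝ) / n1) ^ s) ^ (4 * (K + 1)) * ((n1 : ℝ) ^ m) ^ (4 * (K + 1))) := by
      rw [Nat.cast_sum]
      apply Finset.sum_le_sum
      intro s hs
      rw [Nat.cast_sum]
      refine (Finset.sum_le_sum (hone s hs)).trans ?_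
      rw [Finset.sum_const, Finset.card_powersetCard, nsmul_eq_mul, Finset.card_univ, Fintype.card_fin]
    exact le_trans (by exact_mod_cast h1) h2
  have hterm : ∀ s ∈ Finset.Icc 1 (min S m), (m.choose s : ℝ) *
        (((n1.choose (3 * s / 4) : ℝ) * (((3 * s / 4 : ℕ) : ℝ) / n1) ^ s) ^ (4 * (K + 1)) * ((n1 : ℝ) ^ m) ^ (4 * (K + 1))) ≤
        (((n1 : ℝ) ^ m) ^ (4 * (K + 1))) * (1 / 16 : ℝ) ^ s := by
    intro s hs
    rw [Finset.mem_Icc, le_min_iff] at hs
    have hN : 0 ≤ ((n1 : ℝ) ^ m) ^ (4 * (K + 1)) := by positivity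
    have h1 := grk_term hn hs.1 hs.2.1 hs.2.2 h
    calc (m.choose s : ℝ) *
        (((n1.choose (3 * s / 4) : ℝ) * (((3 * s / 4 : ℕ) : ℝ) / n1) ^ s) ^ (4 * (K + 1)) * ((n1 : ℝ) ^ m) ^ (4 * (K + 1)))
        = (((n1 : ℝ) ^ m) ^ (4 * (K + 1))) *
          ((m.choose s : ℝ) * ((n1.choose (3 * s / 4) : ℝ) * (((3 * s / 4 : ℕ) : ℝ) / n1) ^ s) ^ (4 * (K + 1))) := by ring
      _ ≤ _ := mul_le_mul_of_nonneg_left h1 hN
  have hgeo : ∀ T : ℕ, ∑ s ∈ Finset.Icc 1 T, (1 / 16 : ℝ) ^ s ≤ 1 / 15 - (1 / 15) * (1 / 16) ^ T := by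
    intro T
    induction T with
    | zero => simp
    | succ T ih =>
      rw [Finset.sum_Icc_succ_top (by omega), pow_succ (1 / 16 : ℝ) T]
      linarith
  have hN : 0 < ((n1 : ℝ) ^ m) ^ (4 * (K + 1)) := by positivity
  have hcard : (((Finset.univ : Finset (Fin (4 * (K + 1)) → Fin m → Fin n1)).card : ℕ) : ℝ) = ((n1 : ℝ) ^ m) ^ (4 * (K + 1)) := by
    simp
  rw [hcard] at hsum
  have hfin : ((n1 : ℝ) ^ m) ^ (4 * (K + 1)) ≤ ((n1 : ℝ) ^ m) ^ (4 * (K + 1)) * (1 / 15) := by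
    refine hsum.trans ((Finset.sum_le_sum hterm).trans ?_)
    rw [← Finset.mul_sum]
    apply mul_le_mul_of_nonneg_left _ hN.le
    have := hgeo (min S m)
    have h3 : (0 : ℝ) ≤ (1 / 15) * (1 / 16) ^ (min S m) := by positivity
    linarith
  linarith

/-- pigeon of an edge -/
def pgK (k m : ℕ) (e : Fin (k * m)) : Fin m := (finProdFinEquiv.symm e).2

/-- hole of an edge -/
def hoK {k n1 m : ℕ} (f : Fin k → Fin m → Fin n1) (e : Fin (k * m)) : Fin (k * n1) :=
  finProdFinEquiv ((finProdFinEquiv.symm e).1, f (finProdFinEquiv.symm e).1 (finProdFinEquiv.symm e).2)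

theorem hoK_inj {k n1 m : ℕ} (f : Fin k → Fin m → Fin n1) (e e' : Fin (k * m)) (h1 : pgK k m e = pgK k m e')
    (h2 : hoK f e = hoK f e') : e = e' := by
  unfold hoK at h2
  have h3 := finProdFinEquiv.injective h2
  rw [Prod.mk.injEq] at h3
  unfold pgK at h1
  exact finProdFinEquiv.symm.injective (Prod.ext h3.1 h1)

theorem pgK_card (k m : ℕ) (j : Fin m) : (Finset.univ.filter (fun e : Fin (k * m) => pgK k m e = j)).card = k := by
  have h1 : (Finset.univ.filter (fun e : Fin (k * m) => pgK k m e = j)) =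
      (Finset.univ : Finset (Fin k)).map
        ⟨fun a => (finProdFinEquiv (a, j) : Fin (k * m)), fun a b hab => by
          have := finProdFinEquiv.injective hab
          exact (Prod.mk.inj this).1⟩ := by
    ext e
    simp only [Finset.mem_filter, Finset.mem_univ, true_and, Finset.mem_map, Function.Embedding.coeFn_mk]
    unfold pgK
    constructor
    · intro h
      refine ⟨(finProdFinEquiv.symm e).1, ?_⟩
      rw [← h]
      exact finProdFinEquiv.apply_symm_apply e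
    · rintro ⟨a, rfl⟩
      simp
  rw [h1, Finset.card_map]
  simp

/-- membership in the neighbourhood -/
theorem mem_NNK {k n1 m : ℕ} (f : Fin k → Fin m → Fin n1) (j : Fin m) (v : Fin (k * n1)) :
    v ∈ H38PH.NN (pgK k m) (hoK f) j ↔ f (finProdFinEquiv.symm v).1 j = (finProdFinEquiv.symm v).2 := by
  unfold H38PH.NN
  rw [Finset.mem_image]
  constructor
  · rintro ⟨e, he, rfl⟩
    rw [Finset.mem_filter] at he
    have := he.2
    unfold pgK at this
    unfold hoK
    rw [Equiv.symm_apply_apply]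
    simp only
    rw [← this]
  · intro h
    refine ⟨finProdFinEquiv ((finProdFinEquiv.symm v).1, j), ?_, ?_⟩
    · rw [Finset.mem_filter]
      refine ⟨Finset.mem_univ _, ?_⟩
      unfold pgK
      rw [Equiv.symm_apply_apply]
    · unfold hoK
      rw [Equiv.symm_apply_apply]
      simp only
      rw [h]
      exact finProdFinEquiv.apply_symm_apply v

theorem bd_eqK {k n1 m : ℕ} (f : Fin k → Fin m → Fin n1) (J : Finset (Fin m)) :
    H33RP.bd (H38PH.NN (pgK k m) (hoK f)) J = (bdk f J).map finProdFinEquiv.toEmbedding := by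
  ext v
  rw [H33RP.bd, Finset.mem_filter, Finset.mem_map_equiv, bdk, Finset.mem_filter]
  simp only [Finset.mem_univ, true_and, mem_NNK]

/-- The graph, in the shape used by the operator. -/
theorem ph_graphK (K : ℕ) {n1 m S : ℕ} (hn : 1 ≤ n1) (h : 1296 * m * (27 * S) ^ K ≤ n1 ^ (K + 1)) :
    ∃ (pg : Fin (4 * (K + 1) * m) → Fin m) (ho : Fin (4 * (K + 1) * m) → Fin (4 * (K + 1) * n1)),
      (∀ e e', pg e = pg e' → ho e = ho e' → e = e') ∧
      (∀ j, (Finset.univ.filter (fun e => pg e = j)).card = 4 * (K + 1)) ∧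
      H33RP.Exp (H38PH.NN pg ho) S := by
  obtain ⟨f, hf⟩ := graph_existsK K hn h
  refine ⟨pgK _ m, hoK f, hoK_inj f, pgK_card _ m, ?_⟩
  intro J hJ
  rw [bd_eqK, Finset.card_map]
  have := hf J hJ
  omega

end H92PH
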