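import Pool.Agent.H92.PH.Ct
import Pool.Agent.H38.PH.Defs

/-!
# The graph in the shape used by the operator

Edges `Fin (8 * m)`, pigeons `Fin m`, holes `Fin (8 * n1)`.
-/

set_option autoImplicit false
open scoped Classical

namespace H92PH

open Finset

/-- pigeon of an edge -/
def pgE (m : ℕ) (e : Fin (8 * m)) : Fin m := (finProdFinEquiv.symm e).2

/-- hole of an edge -/
def hoE {n1 m : ℕ} (f : Fin 8 → Fin m → Fin n1) (e : Fin (8 * m)) : Fin (8 * n1) :=
  finProdFinEquiv ((finProdFinEquiv.symm e).1, f (finProdFinEquiv.symm e).1 (finProdFinEquiv.symm e).2)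

theorem hoE_inj {n1 m : ℕ} (f : Fin 8 → Fin m → Fin n1) (e e' : Fin (8 * m)) (h1 : pgE m e = pgE m e')
    (h2 : hoE f e = hoE f e') : e = e' := by
  unfold hoE at h2
  have h3 := finProdFinEquiv.injective h2
  rw [Prod.mk.injEq] at h3
  unfold pgE at h1
  exact finProdFinEquiv.symm.injective (Prod.ext h3.1 h1)

theorem pgE_card (m : ℕ) (j : Fin m) : (Finset.univ.filter (fun e : Fin (8 * m) => pgE m e = j)).card = 8 := by
  have h1 : (Finset.univ.filter (fun e : Fin (8 * m) => pgE m e = j)) =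
      (Finset.univ : Finset (Fin 8)).map
        ⟨fun a => (finProdFinEquiv (a, j) : Fin (8 * m)), fun a b hab => by
          have := finProdFinEquiv.injective hab
          exact (Prod.mk.inj this).1⟩ := by
    ext e
    simp only [Finset.mem_filter, Finset.mem_univ, true_and, Finset.mem_map, Function.Embedding.coeFn_mk]
    unfold pgE
    constructor
    · intro h
      refine ⟨(finProdFinEquiv.symm e).1, ?_⟩
      rw [← h]
      exact finProdFinEquiv.apply_symm_apply e
    · rintro ⟨a, rfl⟩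
      simp
  rw [h1, Finset.card_map]
  simp

/-- membership in the neighbourhood -/
theorem mem_NN {n1 m : ℕ} (f : Fin 8 → Fin m → Fin n1) (j : Fin m) (v : Fin (8 * n1)) :
    v ∈ H38PH.NN (pgE m) (hoE f) j ↔ f (finProdFinEquiv.symm v).1 j = (finProdFinEquiv.symm v).2 := by
  unfold H38PH.NN
  rw [Finset.mem_image]
  constructor
  · rintro ⟨e, he, rfl⟩
    rw [Finset.mem_filter] at he
    have := he.2
    unfold pgE at this
    unfold hoE
    rw [Equiv.symm_apply_apply]
    simp only
    rw [← this]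
  · intro h
    refine ⟨finProdFinEquiv ((finProdFinEquiv.symm v).1, j), ?_, ?_⟩
    · rw [Finset.mem_filter]
      refine ⟨Finset.mem_univ _, ?_⟩
      unfold pgE
      rw [Equiv.symm_apply_apply]
    · unfold hoE
      rw [Equiv.symm_apply_apply]
      simp only
      rw [h]
      exact finProdFinEquiv.apply_symm_apply v

theorem bd_eq {n1 m : ℕ} (f : Fin 8 → Fin m → Fin n1) (J : Finset (Fin m)) :
    H33RP.bd (H38PH.NN (pgE m) (hoE f)) J = (bdf f J).map finProdFinEquiv.toEmbedding := by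
  ext v
  rw [H33RP.bd, Finset.mem_filter, Finset.mem_map_equiv, bdf, Finset.mem_filter]
  simp only [Finset.mem_univ, true_and, mem_NN]

theorem indep_map {n1 m : ℕ} (f : Fin 8 → Fin m → Fin n1) (B : ℕ) (hB : ∀ J : Finset (Fin m), J.Nonempty → J.card ≤ B →
    J.card < (bdf f J).card) (T : Finset (Fin 8 × Fin m)) (hT : ∀ e ∈ T, ∀ e' ∈ T, e ≠ e' → ¬ conf f e e') :
    T.map finProdFinEquiv.toEmbedding ∈ H38PH.GoodP (pgE m) (hoE f) B := by
  obtain ⟨h1, h2⟩ := indep_good f T hT
  refine ⟨?_, ?_⟩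
  · intro e he e' he' hee
    rw [Finset.mem_map_equiv] at he he'
    unfold hoE at hee
    have h3 := finProdFinEquiv.injective hee
    rw [Prod.mk.injEq] at h3
    exact finProdFinEquiv.symm.injective (h1 _ he _ he' h3.1 h3.2)
  · intro J hJ hJB hsub
    obtain ⟨v, hv, hne⟩ := h2 J (hB J hJ hJB)
    have hv' : finProdFinEquiv v ∈ H33RP.bd (H38PH.NN (pgE m) (hoE f)) J := by
      rw [bd_eq, Finset.mem_map_equiv, Equiv.symm_apply_apply]
      exact hv
    obtain ⟨e, he, hev⟩ := Finset.mem_image.1 (hsub hv')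
    rw [Finset.mem_map_equiv] at he
    unfold hoE at hev
    exact hne _ he (finProdFinEquiv.injective hev)

/-- The graph. -/
theorem ph_graph (C : ℕ) (hC : 1 ≤ C) {n1 m : ℕ} (hn : 1 ≤ n1) (hm : m ≤ C * n1) :
    ∃ (pg : Fin (8 * m) → Fin m) (ho : Fin (8 * m) → Fin (8 * n1)),
      (∀ e e', pg e = pg e' → ho e = ho e' → e = e') ∧
      (∀ j, (Finset.univ.filter (fun e => pg e = j)).card = 8) ∧
      H33RP.Exp (H38PH.NN pg ho) (n1 / (16 * 2187 * C) ^ 2) ∧
      ∀ h D R : ℕ, 1 ≤ h → 32 * m ^ 2 ≤ n1 * h * R →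
        (8 * m - R - D * (8 * h ^ 2)).choose D ≤
          (Finset.univ.filter (fun T : Finset (Fin (8 * m)) =>
            T.card = D ∧ T ∈ H38PH.GoodP pg ho (n1 / (16 * 2187 * C) ^ 2))).card := by
  obtain ⟨f, hf1, hf2⟩ := graph_exists2 C hC hn hm
  have hpos : 0 < (16 * 2187 * C) ^ 2 := by positivity
  have hB : ∀ J : Finset (Fin m), J.Nonempty → J.card ≤ n1 / (16 * 2187 * C) ^ 2 → J.card < (bdf f J).card := by
    intro J hJ hJB
    apply hf1 J hJ
    rw [Nat.le_div_iff_mul_le hpos, mul_comm] at hJB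
    exact hJB
  refine ⟨pgE m, hoE f, hoE_inj f, pgE_card m, ?_, ?_⟩
  · intro J hJ
    rcases Finset.eq_empty_or_nonempty J with rfl | hne
    · simp
    · rw [bd_eq, Finset.card_map]
      have := hB J hne hJ
      omega
  · intro h D R hh hR
    have h1 := low_card f h
    -- n1 * (h * (8m - low)) ≤ n1 * pairs ≤ 32 m^2 ≤ n1 * h * R
    have h2 : n1 * h * (8 * m - (lowE f h).card) ≤ n1 * h * R := by
      calc n1 * h * (8 * m - (lowE f h).card) = n1 * (h * (8 * m - (lowE f h).card)) := by ring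
        _ ≤ n1 * pairs f := Nat.mul_le_mul_left _ h1
        _ ≤ 32 * m ^ 2 := hf2
        _ ≤ _ := hR
    have h3 : 8 * m - (lowE f h).card ≤ R := Nat.le_of_mul_le_mul_left h2 (by positivity)
    have h4 := indep_card (conf f) (fun e => ⟨e.2, rfl, rfl⟩) (fun e e' ⟨u, h1, h2⟩ => ⟨u, h2, h1⟩) (lowE f h) (8 * h ^ 2)
      (by nlinarith) (fun e he => conf_card f h e he) D
    have h5 : (8 * m - R - D * (8 * h ^ 2)).choose D ≤ ((lowE f h).card - D * (8 * h ^ 2)).choose D := by
      apply Nat.choose_le_choose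
      omega
    refine (h5.trans h4).trans ?_
    apply Finset.card_le_card_of_injOn (fun T => T.map finProdFinEquiv.toEmbedding)
    · intro T hT
      rw [Finset.mem_coe, mem_indep] at hT
      rw [Finset.mem_coe, Finset.mem_filter]
      refine ⟨Finset.mem_univ _, ?_, ?_⟩
      · show (T.map finProdFinEquiv.toEmbedding).card = D
        rw [Finset.card_map]; exact hT.1.2
      · exact indep_map f _ hB T hT.2
    · intro T _ T' _ hTT
      exact Finset.map_injective _ hTT

end H92PH
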